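import Mathlib

set_option autoImplicit false

open Polynomial

namespace Pool.Helper99.OrdField

/-- the polynomial X^n - 4X + 2 -/
noncomputable def mz (n : ℕ) : ℤ[X] := X ^ n - C 4 * X + C 2

noncomputable def mq (n : ℕ) : ℚ[X] := X ^ n - C 4 * X + C 2

lemma mz_map (n : ℕ) : (mz n).map (Int.castRingHom ℚ) = mq n := by
  simp only [mz, mq, Polynomial.map_add, Polynomial.map_sub, Polynomial.map_pow, map_X,
    Polynomial.map_mul, map_C]
  norm_num

lemma natDegree_aux (R : Type*) [CommRing R] [Nontrivial R] {n : ℕ} (hn : 2 ≤ n) (a b : R) :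
    (C a * X + C b : R[X]).natDegree < n := by
  have h1 : (C a * X + C b : R[X]).natDegree ≤ 1 := natDegree_linear_le
  omega

lemma mz_eq (n : ℕ) : mz n = X ^ n + (C (-4) * X + C 2) := by
  simp [mz]; ring

lemma mz_monic {n : ℕ} (hn : 2 ≤ n) : (mz n).Monic := by
  rw [mz_eq]
  exact monic_X_pow_add (by
    refine lt_of_le_of_lt degree_le_natDegree ?_
    exact_mod_cast natDegree_aux ℤ hn (-4) 2)

lemma mq_monic {n : ℕ} (hn : 2 ≤ n) : (mq n).Monic := by
  rw [← mz_map]
  exact (mz_monic hn).map _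

lemma mz_natDegree {n : ℕ} (hn : 2 ≤ n) : (mz n).natDegree = n := by
  rw [mz_eq]
  rw [natDegree_add_eq_left_of_natDegree_lt]
  · simp
  · simpa using natDegree_aux ℤ hn (-4) 2

lemma mq_natDegree {n : ℕ} (hn : 2 ≤ n) : (mq n).natDegree = n := by
  rw [← mz_map, (mz_monic hn).natDegree_map, mz_natDegree hn]

lemma mz_irreducible {n : ℕ} (hn : 2 ≤ n) : Irreducible (mz n) := by
  have hp : (Ideal.span {(2:ℤ)}).IsPrime := by
    rw [Ideal.span_singleton_prime (by norm_num)]
    exact Int.prime_two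
  refine IsEisensteinAt.irreducible (𝓟 := Ideal.span {(2:ℤ)}) ⟨?_, ?_, ?_⟩ hp
    (mz_monic hn).isPrimitive (by rw [mz_natDegree hn]; omega)
  · rw [(mz_monic hn).leadingCoeff]
    rw [Ideal.mem_span_singleton]
    norm_num
  · intro k hk
    rw [mz_natDegree hn] at hk
    rw [Ideal.mem_span_singleton, mz_eq]
    simp only [coeff_add, coeff_X_pow, coeff_C_mul, coeff_X, coeff_C]
    rw [if_neg (by omega)]
    split_ifs <;> norm_num
  · rw [Ideal.span_singleton_pow, Ideal.mem_span_singleton, mz_eq]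
    simp only [coeff_add, coeff_X_pow, coeff_C_mul, coeff_X, coeff_C]
    rw [if_neg (by omega)]
    norm_num

lemma mq_irreducible {n : ℕ} (hn : 2 ≤ n) : Irreducible (mq n) := by
  rw [← mz_map]
  exact (((mz_monic hn).isPrimitive).irreducible_iff_irreducible_map_fraction_map (K := ℚ)).1
    (mz_irreducible hn)

/-- the real function -/
lemma aeval_mq (n : ℕ) (x : ℝ) : aeval x (mq n) = x ^ n - 4 * x + 2 := by
  simp [mq]

lemma exists_root_Ioo {n : ℕ} {a b : ℝ} (hab : a ≤ b)
    (h : (a ^ n - 4 * a + 2 < 0 ∧ 0 < b ^ n - 4 * b + 2) ∨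
      (0 < a ^ n - 4 * a + 2 ∧ b ^ n - 4 * b + 2 < 0)) :
    ∃ x ∈ Set.Ioo a b, aeval x (mq n) = 0 := by
  have hc : ContinuousOn (fun x : ℝ => x ^ n - 4 * x + 2) (Set.Icc a b) := by fun_prop
  rcases h with h | h
  · obtain ⟨x, hx, hx0⟩ := intermediate_value_Ioo hab hc h
    exact ⟨x, hx, by rw [aeval_mq]; exact hx0⟩
  · obtain ⟨x, hx, hx0⟩ := intermediate_value_Ioo' hab hc ⟨h.2, h.1⟩
    exact ⟨x, hx, by rw [aeval_mq]; exact hx0⟩

lemma exists_neg_root {n : ℕ} (hn : 5 ≤ n) (ho : Odd n) :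
    ∃ x ∈ Set.Ioo (-2 : ℝ) 0, aeval x (mq n) = 0 := by
  apply exists_root_Ioo (by norm_num)
  left
  constructor
  · rw [ho.neg_pow]
    have : (2:ℝ) ^ 5 ≤ 2 ^ n := pow_le_pow_right₀ (by norm_num) hn
    norm_num at this ⊢
    linarith
  · rw [zero_pow (by omega)]
    norm_num

lemma exists_root_01 {n : ℕ} (hn : 5 ≤ n) :
    ∃ x ∈ Set.Ioo (0 : ℝ) 1, aeval x (mq n) = 0 := by
  apply exists_root_Ioo (by norm_num)
  right
  constructor
  · rw [zero_pow (by omega)]
    norm_num
  · norm_num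

lemma exists_root_12 {n : ℕ} (hn : 5 ≤ n) :
    ∃ x ∈ Set.Ioo (1 : ℝ) 2, aeval x (mq n) = 0 := by
  apply exists_root_Ioo (by norm_num)
  left
  constructor
  · norm_num
  · have : (2:ℝ) ^ 5 ≤ 2 ^ n := pow_le_pow_right₀ (by norm_num) hn
    norm_num at this ⊢
    linarith

lemma card_real_roots {n : ℕ} (hn : 5 ≤ n) : Fintype.card ((mq n).rootSet ℝ) ≤ 3 := by
  have h1 := card_rootSet_le_derivative (mq n)
  have h2 := card_rootSet_le_derivative (derivative (mq n))
  have h3 : derivative (derivative (mq n)) = C ((n : ℚ) * (n - 1)) * X ^ (n - 2) := by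
    simp only [mq, derivative_add, derivative_sub, derivative_X_pow, derivative_mul, derivative_C,
      derivative_X, derivative_natCast]
    simp only [Polynomial.C_mul, zero_mul, mul_one, zero_add, sub_zero, add_zero, map_zero]
    have : (n : ℚ) - 1 = ((n - 1 : ℕ) : ℚ) := by
      rw [Nat.cast_sub (by omega)]; simp
    rw [this]
    simp [mul_assoc, Nat.sub_sub]
  have h4 : Fintype.card ((derivative (derivative (mq n))).rootSet ℝ) ≤ 1 := by
    rw [Fintype.card_le_one_iff_subsingleton]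
    constructor
    rintro ⟨x, hx⟩ ⟨y, hy⟩
    have key : ∀ z : ℝ, z ∈ (derivative (derivative (mq n))).rootSet ℝ → z = 0 := by
      intro z hz
      rw [mem_rootSet] at hz
      have := hz.2
      rw [h3] at this
      simp only [map_mul, aeval_C, aeval_X_pow] at this
      rw [mul_eq_zero] at this
      rcases this with h | h
      · exfalso
        have h5 : (algebraMap ℚ ℝ) ((n : ℚ) * ((n : ℚ) - 1)) = (n : ℝ) * (n - 1) := by
          simp
        rw [← h5] at *
        have h6 : ((n : ℚ) * ((n : ℚ) - 1)) = 0 := by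
          have h7 := h
          try rw [← map_mul] at h7
          exact (map_eq_zero _).1 h7
        have : (5 : ℚ) ≤ n := by exact_mod_cast hn
        nlinarith
      · exact pow_eq_zero_iff (by omega) |>.1 h
    exact Subtype.ext ((key x hx).trans (key y hy).symm)
  omega

/-- classification of the real roots : at most one negative root, at most one root in (0,1) -/
lemma real_roots_cases {n : ℕ} (hn : 5 ≤ n) (ho : Odd n) :
    ∃ r1 r2 r3 : ℝ, r1 < 0 ∧ 0 < r2 ∧ r2 < 1 ∧ 1 < r3 ∧ aeval r1 (mq n) = 0 ∧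
      aeval r2 (mq n) = 0 ∧ aeval r3 (mq n) = 0 ∧
      ∀ x : ℝ, aeval x (mq n) = 0 → x = r1 ∨ x = r2 ∨ x = r3 := by
  obtain ⟨r1, h1, h1'⟩ := exists_neg_root hn ho
  obtain ⟨r2, h2, h2'⟩ := exists_root_01 hn
  obtain ⟨r3, h3, h3'⟩ := exists_root_12 hn
  refine ⟨r1, r2, r3, h1.2, h2.1, h2.2, h3.1, h1', h2', h3', ?_⟩
  intro x hx
  by_contra hcon
  push Not at hcon
  have hne : mq n ≠ 0 := (mq_monic (by omega)).ne_zero
  have hmem : ∀ z : ℝ, aeval z (mq n) = 0 → z ∈ ((mq n).rootSet ℝ).toFinset := by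
    intro z hz
    rw [Set.mem_toFinset, mem_rootSet]
    exact ⟨hne, hz⟩
  have hsub : ({x, r1, r2, r3} : Finset ℝ) ⊆ ((mq n).rootSet ℝ).toFinset := by
    intro z hz
    simp only [Finset.mem_insert, Finset.mem_singleton] at hz
    rcases hz with rfl | rfl | rfl | rfl
    · exact hmem _ hx
    · exact hmem _ h1'
    · exact hmem _ h2'
    · exact hmem _ h3'
  have hcard : ({x, r1, r2, r3} : Finset ℝ).card = 4 := by
    have a12 : r1 ≠ r2 := by linarith [h1.2, h2.1] |> fun (h : r1 < r2) => h.ne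
    have a13 : r1 ≠ r3 := by
      have : r1 < r3 := by linarith [h1.2, h3.1]
      exact this.ne
    have a23 : r2 ≠ r3 := by
      have : r2 < r3 := by linarith [h2.2, h3.1]
      exact this.ne
    rw [Finset.card_insert_of_notMem, Finset.card_insert_of_notMem, Finset.card_insert_of_notMem,
      Finset.card_singleton]
    · simp [a23]
    · simp [a12, a13]
    · simp [hcon.1, hcon.2.1, hcon.2.2]
  have := Finset.card_le_card hsub
  rw [hcard, Set.toFinset_card] at this
  have h3 := card_real_roots hn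
  omega

end Pool.Helper99.OrdField
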