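import Mathlib
import Pool.Agent.Helper99.OrdField.Poly

set_option autoImplicit false
set_option linter.unusedSectionVars false
set_option linter.style.haveILetI false

open Polynomial IntermediateField Module

namespace Pool.Helper99.OrdField

section Gen

variable {K : Type*} [Field K] [Algebra ℚ K] [Algebra K ℝ] [IsScalarTower ℚ K ℝ]

lemma integral_of_root {n : ℕ} (hn : 2 ≤ n) {θ : ℝ} (h : aeval θ (mq n) = 0) :
    IsIntegral ℚ θ := ⟨mq n, mq_monic hn, h⟩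

lemma integralK_of_root {n : ℕ} (hn : 2 ≤ n) {θ : ℝ} (h : aeval θ (mq n) = 0) :
    IsIntegral K θ := (integral_of_root hn h).tower_top

lemma minpolyQ {n : ℕ} (hn : 2 ≤ n) {θ : ℝ} (h : aeval θ (mq n) = 0) :
    minpoly ℚ θ = mq n :=
  (minpoly.eq_of_irreducible_of_monic (mq_irreducible hn) h (mq_monic hn)).symm

variable (K) in
theorem minpoly_eq [FiniteDimensional ℚ K] {n : ℕ} (hn : 2 ≤ n)
    (hc : (finrank ℚ K).Coprime n) {θ : ℝ} (h : aeval θ (mq n) = 0) :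
    minpoly K θ = (mq n).map (algebraMap ℚ K) := by
  have hiQ := integral_of_root hn h
  have hiK : IsIntegral K θ := integralK_of_root hn h
  haveI : FiniteDimensional K K⟮θ⟯ := adjoin.finiteDimensional hiK
  haveI : FiniteDimensional ℚ K⟮θ⟯ := FiniteDimensional.trans ℚ K K⟮θ⟯
  haveI : FiniteDimensional ℚ (K⟮θ⟯.restrictScalars ℚ) := ‹FiniteDimensional ℚ K⟮θ⟯›
  have h1 : finrank ℚ ℚ⟮θ⟯ = n := by
    rw [adjoin.finrank hiQ, minpolyQ hn h, mq_natDegree hn]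
  have hle : ℚ⟮θ⟯ ≤ K⟮θ⟯.restrictScalars ℚ := by
    rw [adjoin_simple_le_iff]
    exact mem_adjoin_simple_self K θ
  have h2 : finrank ℚ ℚ⟮θ⟯ ∣ finrank ℚ (K⟮θ⟯.restrictScalars ℚ) := finrank_dvd_of_le_right hle
  have h3 : finrank ℚ (K⟮θ⟯.restrictScalars ℚ) = finrank ℚ K * finrank K K⟮θ⟯ :=
    (finrank_mul_finrank ℚ K K⟮θ⟯).symm
  have h4 : finrank K K⟮θ⟯ = (minpoly K θ).natDegree := adjoin.finrank hiK
  have h5 : n ∣ (minpoly K θ).natDegree := by
    rw [h1, h3, h4] at h2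
    exact (Nat.Coprime.dvd_mul_left hc.symm).1 h2
  have hroot : aeval θ ((mq n).map (algebraMap ℚ K)) = 0 := by
    rw [aeval_map_algebraMap]; exact h
  have hmon : ((mq n).map (algebraMap ℚ K)).Monic := (mq_monic hn).map _
  have hdvd : minpoly K θ ∣ (mq n).map (algebraMap ℚ K) := minpoly.dvd K θ hroot
  have hpos : 0 < (minpoly K θ).natDegree := minpoly.natDegree_pos hiK
  have hle2 : n ≤ (minpoly K θ).natDegree := Nat.le_of_dvd hpos h5
  refine (Polynomial.eq_of_monic_of_dvd_of_natDegree_le (minpoly.monic hiK) hmon hdvd ?_).symm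
  rw [(mq_monic hn).natDegree_map, mq_natDegree hn]
  exact hle2

/-- another root of the same minimal polynomial -/
lemma minpoly_eq' {n : ℕ} (hn : 2 ≤ n) {θ θ' : ℝ} (h : aeval θ (mq n) = 0)
    (hmin : minpoly K θ = (mq n).map (algebraMap ℚ K)) (h' : aeval θ' (mq n) = 0) :
    minpoly K θ' = (mq n).map (algebraMap ℚ K) := by
  have hiK : IsIntegral K θ := integralK_of_root hn h
  have hirr : Irreducible ((mq n).map (algebraMap ℚ K)) := by
    rw [← hmin]; exact minpoly.irreducible hiK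
  refine (minpoly.eq_of_irreducible_of_monic hirr ?_ ((mq_monic hn).map _)).symm
  rw [aeval_map_algebraMap]; exact h'

lemma aroots_mem {n : ℕ} (hn : 2 ≤ n) {θ : ℝ} (h : aeval θ (mq n) = 0)
    (hmin : minpoly K θ = (mq n).map (algebraMap ℚ K)) {L : Type*} [Field L] [Algebra K L]
    [Algebra ℚ L] [IsScalarTower ℚ K L] {x : L} (hx : aeval x (mq n) = 0) :
    x ∈ (minpoly K θ).aroots L := by
  rw [mem_aroots]
  refine ⟨minpoly.ne_zero (integralK_of_root hn h), ?_⟩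
  rw [hmin, aeval_map_algebraMap]; exact hx

/-- K-homomorphisms out of K(θ) sending θ to any prescribed root -/
lemma exists_hom {n : ℕ} (hn : 2 ≤ n) {θ : ℝ} (h : aeval θ (mq n) = 0)
    (hmin : minpoly K θ = (mq n).map (algebraMap ℚ K)) {L : Type*} [Field L] [Algebra K L]
    [Algebra ℚ L] [IsScalarTower ℚ K L] {x : L} (hx : aeval x (mq n) = 0) :
    ∃ f : K⟮θ⟯ →ₐ[K] L, f (AdjoinSimple.gen K θ) = x :=
  ⟨(algHomAdjoinIntegralEquiv K (integralK_of_root hn h)).symm ⟨x, aroots_mem hn h hmin hx⟩,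
    algHomAdjoinIntegralEquiv_symm_apply_gen K _ _⟩

/-- signs : no square root of δ(θ) in K(θ) if δ is negative at another real root -/
theorem sqrt_not_mem {n : ℕ} (hn : 2 ≤ n) {θ : ℝ} (h : aeval θ (mq n) = 0)
    (hmin : minpoly K θ = (mq n).map (algebraMap ℚ K)) {ρ : ℝ} (hρ : aeval ρ (mq n) = 0)
    (δ : ℚ[X]) (hneg : aeval ρ δ < 0) {y : ℝ} (hy : y ∈ K⟮θ⟯) : y ^ 2 ≠ aeval θ δ := by
  intro hyy
  obtain ⟨f, hf⟩ := exists_hom hn h hmin (L := ℝ) hρ
  have h1 : (⟨y, hy⟩ : K⟮θ⟯) ^ 2 = aeval (AdjoinSimple.gen K θ) δ := by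
    apply Subtype.ext
    have h2 : ((aeval (AdjoinSimple.gen K θ) δ : K⟮θ⟯) : ℝ) = aeval θ δ := by
      have := (aeval_algebraMap_apply ℝ (AdjoinSimple.gen K θ) δ)
      rw [AdjoinSimple.algebraMap_gen] at this
      exact this.symm
    rw [h2, ← hyy]
    rfl
  have h3 := congrArg f h1
  have h4 : f (aeval (AdjoinSimple.gen K θ) δ) = aeval ρ δ := by
    have := (aeval_algHom_apply (f.restrictScalars ℚ) (AdjoinSimple.gen K θ) δ)
    rw [AlgHom.restrictScalars_apply, hf] at this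
    exact this.symm
  rw [map_pow, h4] at h3
  have := sq_nonneg (f ⟨y, hy⟩)
  rw [h3] at this
  linarith

/-- uniqueness of the root in K(θ) -/
theorem unique_root_adjoin {n : ℕ} (hn : 5 ≤ n) (h6 : n.Coprime 6) {θ : ℝ}
    (h : aeval θ (mq n) = 0) (hmin : minpoly K θ = (mq n).map (algebraMap ℚ K)) {θ' : ℝ}
    (h' : aeval θ' (mq n) = 0) (hmem : θ' ∈ K⟮θ⟯) : θ' = θ := by
  have hn2 : 2 ≤ n := by omega
  have hiK : IsIntegral K θ := integralK_of_root hn2 h
  haveI : FiniteDimensional K K⟮θ⟯ := adjoin.finiteDimensional hiK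
  have hfr : finrank K K⟮θ⟯ = n := by
    rw [adjoin.finrank hiK, hmin, (mq_monic hn2).natDegree_map, mq_natDegree hn2]
  -- the automorphism group
  have hdvd : Nat.card (Gal(K⟮θ⟯/K)) ∣ n := by
    have h1 := finrank_fixedField_eq_card (⊤ : Subgroup (Gal(K⟮θ⟯/K)))
    have h2 := finrank_mul_finrank K (fixedField (⊤ : Subgroup (Gal(K⟮θ⟯/K)))) K⟮θ⟯
    rw [h1, hfr] at h2
    rw [← h2]
    have : Nat.card (⊤ : Subgroup (Gal(K⟮θ⟯/K))) = Nat.card (Gal(K⟮θ⟯/K)) :=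
      Nat.card_congr Subgroup.topEquiv.toEquiv
    rw [this]
    exact dvd_mul_left _ _
  have hroot : ∀ α : Gal(K⟮θ⟯/K), ((α (AdjoinSimple.gen K θ) : K⟮θ⟯) : ℝ) ∈ (mq n).rootSet ℝ := by
    intro α
    rw [mem_rootSet]
    refine ⟨(mq_monic hn2).ne_zero, ?_⟩
    have h1 : aeval (AdjoinSimple.gen K θ) (mq n) = 0 := by
      apply (algebraMap K⟮θ⟯ ℝ).injective
      rw [map_zero, ← aeval_algebraMap_apply, AdjoinSimple.algebraMap_gen, h]
    have h2 : aeval (α (AdjoinSimple.gen K θ)) (mq n) = 0 := by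
      have := aeval_algHom_apply ((α : K⟮θ⟯ →ₐ[K] K⟮θ⟯).restrictScalars ℚ)
        (AdjoinSimple.gen K θ) (mq n)
      rw [h1, map_zero] at this
      exact this
    have h3 := aeval_algebraMap_apply ℝ (α (AdjoinSimple.gen K θ)) (mq n)
    rw [h2, map_zero] at h3
    exact h3
  have hinj : Function.Injective (fun α : Gal(K⟮θ⟯/K) =>
      (⟨((α (AdjoinSimple.gen K θ) : K⟮θ⟯) : ℝ), hroot α⟩ : (mq n).rootSet ℝ)) := by
    intro α β hab
    have h1 : α (AdjoinSimple.gen K θ) = β (AdjoinSimple.gen K θ) := by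
      have := congrArg Subtype.val hab
      exact Subtype.ext this
    have h2 : (α : K⟮θ⟯ →ₐ[K] K⟮θ⟯) = (β : K⟮θ⟯ →ₐ[K] K⟮θ⟯) := by
      apply (adjoin.powerBasis hiK).algHom_ext
      rw [adjoin.powerBasis_gen]
      exact h1
    ext x
    have := DFunLike.congr_fun h2 x
    exact congrArg Subtype.val this
  have hcard : Nat.card (Gal(K⟮θ⟯/K)) ≤ 3 := by
    have h1 := Nat.card_le_card_of_injective _ hinj
    rw [Nat.card_eq_fintype_card (α := (mq n).rootSet ℝ)] at h1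
    exact h1.trans (card_real_roots hn)
  have hone : Nat.card (Gal(K⟮θ⟯/K)) = 1 := by
    have hc : (Nat.card (Gal(K⟮θ⟯/K))).Coprime 6 := Nat.Coprime.coprime_dvd_left hdvd h6
    interval_cases hh : Nat.card (Gal(K⟮θ⟯/K))
    · norm_num at hc
    · rfl
    · norm_num at hc
    · norm_num at hc
  -- the endomorphism sending θ to θ'
  have hx : aeval (⟨θ', hmem⟩ : K⟮θ⟯) (mq n) = 0 := by
    apply (algebraMap K⟮θ⟯ ℝ).injective
    rw [map_zero, ← aeval_algebraMap_apply]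
    exact h'
  obtain ⟨f, hf⟩ := exists_hom hn2 h hmin hx
  have hbij : Function.Bijective f := AlgHom.bijective f
  let α : Gal(K⟮θ⟯/K) := AlgEquiv.ofBijective f hbij
  have : α = 1 := by
    have := (Nat.card_eq_one_iff_unique.1 hone).1
    exact Subsingleton.elim _ _
  have h1 : α (AdjoinSimple.gen K θ) = AdjoinSimple.gen K θ := by rw [this]; rfl
  have h2 : α (AdjoinSimple.gen K θ) = f (AdjoinSimple.gen K θ) := rfl
  rw [h2, hf] at h1
  have := congrArg Subtype.val h1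
  exact this

lemma finrank_adjoin {n : ℕ} (hn : 2 ≤ n) {θ : ℝ}
    (h : aeval θ (mq n) = 0) (hmin : minpoly K θ = (mq n).map (algebraMap ℚ K)) :
    finrank K K⟮θ⟯ = n := by
  rw [adjoin.finrank (integralK_of_root hn h), hmin, (mq_monic hn).natDegree_map, mq_natDegree hn]

/-- degree two -/
lemma natDegree_minpoly_sqrt {L : Type*} [Field L] [Algebra L ℝ] {y : ℝ} {d : L}
    (hy : y ^ 2 = algebraMap L ℝ d) (hny : y ∉ (algebraMap L ℝ).range) :
    IsIntegral L y ∧ minpoly L y = X ^ 2 - C d := by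
  have hmon : (X ^ 2 - C d : L[X]).Monic := monic_X_pow_sub_C d (by norm_num)
  have hroot : aeval y (X ^ 2 - C d : L[X]) = 0 := by
    simp [hy]
  have hint : IsIntegral L y := ⟨_, hmon, hroot⟩
  refine ⟨hint, ?_⟩
  have hdvd := minpoly.dvd L y hroot
  have hdeg : (minpoly L y).natDegree ≠ 1 := by
    intro h1
    exact hny ((minpoly.natDegree_eq_one_iff).1 h1)
  have hpos := minpoly.natDegree_pos hint
  refine (Polynomial.eq_of_monic_of_dvd_of_natDegree_le (minpoly.monic hint) hmon hdvd ?_).symm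
  rw [natDegree_X_pow_sub_C]
  omega

lemma fix_lemma {M : Type*} [Field M] [Algebra M ℝ] [Algebra ℚ M] (σ : M →+* M) (t u : M)
    (δ p : ℚ[X]) (ht : aeval (algebraMap M ℝ t) p = 0)
    (hu : (algebraMap M ℝ u) ^ 2 = aeval (algebraMap M ℝ t) δ)
    (huniq : ∀ x : ℝ, aeval x p = 0 → 0 ≤ aeval x δ → x = algebraMap M ℝ t) : σ t = t := by
  have hσp : ∀ (z : M) (q : ℚ[X]), σ (aeval z q) = aeval (σ z) q := by
    intro z q
    exact (aeval_algHom_apply σ.toRatAlgHom z q).symm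
  have hcoe : ∀ (z : M) (q : ℚ[X]), algebraMap M ℝ (aeval z q) = aeval (algebraMap M ℝ z) q := by
    intro z q
    exact (aeval_algebraMap_apply ℝ z q).symm
  apply (algebraMap M ℝ).injective
  apply huniq
  · rw [← hcoe, ← hσp]
    have : aeval t p = 0 := by
      apply (algebraMap M ℝ).injective
      rw [hcoe, map_zero]; exact ht
    rw [this, map_zero, map_zero]
  · rw [← hcoe, ← hσp]
    have : aeval t δ = u ^ 2 := by
      apply (algebraMap M ℝ).injective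
      rw [hcoe, map_pow]; exact hu.symm
    rw [this, map_pow, map_pow]
    exact sq_nonneg _

lemma fix_all {E : Type*} [Field E] [Algebra E ℝ] (M : IntermediateField E ℝ) (θ : ℝ)
    (hle : M ≤ E⟮θ⟯) (hθ : θ ∈ M) (σ : Gal(M/E)) (hfix : σ ⟨θ, hθ⟩ = ⟨θ, hθ⟩) : σ = 1 := by
  have hle2 : E⟮θ⟯ ≤ M := by
    rw [adjoin_simple_le_iff]; exact hθ
  have hall : ∀ x (hx : x ∈ E⟮θ⟯), ∀ hx2 : x ∈ M, σ ⟨x, hx2⟩ = ⟨x, hx2⟩ := by
    intro x hx
    induction hx using adjoin_induction with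
    | mem x hx =>
      rw [Set.mem_singleton_iff] at hx
      subst hx
      intro hx2
      exact hfix
    | algebraMap x =>
      intro hx2
      exact σ.commutes x
    | add x y hx hy ihx ihy =>
      intro hx2
      have h1 := ihx (hle2 hx)
      have h2 := ihy (hle2 hy)
      have h3 : (⟨x + y, hx2⟩ : M) = ⟨x, hle2 hx⟩ + ⟨y, hle2 hy⟩ := rfl
      rw [h3, map_add, h1, h2]
    | inv x hx ihx =>
      intro hx2
      have h1 := ihx (hle2 hx)
      have h3 : (⟨x⁻¹, hx2⟩ : M) = ⟨x, hle2 hx⟩⁻¹ := rfl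
      rw [h3, map_inv₀, h1]
    | mul x y hx hy ihx ihy =>
      intro hx2
      have h1 := ihx (hle2 hx)
      have h2 := ihy (hle2 hy)
      have h3 : (⟨x * y, hx2⟩ : M) = ⟨x, hle2 hx⟩ * ⟨y, hle2 hy⟩ := rfl
      rw [h3, map_mul, h1, h2]
  ext z
  have := hall z.1 (hle z.2) z.2
  exact congrArg Subtype.val this

/-- uniqueness of the root in K(θ, y), y a square root of δ(θ), when θ is the only real
root where δ is nonnegative -/
theorem unique_root_adjoin2 {n : ℕ} (hn : 5 ≤ n) (h6 : n.Coprime 6) {θ y : ℝ}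
    (h : aeval θ (mq n) = 0) (hmin : minpoly K θ = (mq n).map (algebraMap ℚ K))
    (δ : ℚ[X]) (hyy : y ^ 2 = aeval θ δ) (hny : y ∉ K⟮θ⟯)
    (huniq : ∀ x : ℝ, aeval x (mq n) = 0 → 0 ≤ aeval x δ → x = θ) {θ' : ℝ}
    (h' : aeval θ' (mq n) = 0) (hmem : θ' ∈ K⟮θ, y⟯) : θ' = θ := by
  by_contra hne
  have hn2 : 2 ≤ n := by omega
  have hθ'L : θ' ∉ K⟮θ⟯ := fun hm => hne (unique_root_adjoin hn h6 h hmin h' hm)
  have hmin' := minpoly_eq' hn2 h hmin h'
  have hiK : IsIntegral K θ := integralK_of_root hn2 h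
  have hiK' : IsIntegral K θ' := integralK_of_root hn2 h'
  haveI : FiniteDimensional K K⟮θ⟯ := adjoin.finiteDimensional hiK
  haveI : FiniteDimensional K K⟮θ'⟯ := adjoin.finiteDimensional hiK'
  -- y over L = K(θ)
  have hd : ∃ d : K⟮θ⟯, y ^ 2 = algebraMap K⟮θ⟯ ℝ d := by
    refine ⟨aeval (AdjoinSimple.gen K θ) δ, ?_⟩
    have := (aeval_algebraMap_apply ℝ (AdjoinSimple.gen K θ) δ)
    rw [AdjoinSimple.algebraMap_gen] at this
    rw [hyy, this]
  obtain ⟨d, hd⟩ := hd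
  have hny' : y ∉ (algebraMap K⟮θ⟯ ℝ).range := by
    rintro ⟨z, hz⟩
    exact hny (hz ▸ z.2)
  obtain ⟨hiy, hminy⟩ := natDegree_minpoly_sqrt hd hny'
  haveI : FiniteDimensional K⟮θ⟯ K⟮θ⟯⟮y⟯ := adjoin.finiteDimensional hiy
  have hfrL : finrank K⟮θ⟯ K⟮θ⟯⟮y⟯ = 2 := by
    rw [adjoin.finrank hiy, hminy, natDegree_X_pow_sub_C]
  have hrs : K⟮θ⟯⟮y⟯.restrictScalars K = K⟮θ, y⟯ := adjoin_simple_adjoin_simple K θ y
  have hmemL : θ' ∈ K⟮θ⟯⟮y⟯ := by
    have : θ' ∈ K⟮θ⟯⟮y⟯.restrictScalars K := by rw [hrs]; exact hmem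
    exact this
  -- L(θ') = L(y)
  have hLL : K⟮θ⟯⟮θ'⟯ = K⟮θ⟯⟮y⟯ := by
    have hle : K⟮θ⟯⟮θ'⟯ ≤ K⟮θ⟯⟮y⟯ := by
      rw [adjoin_simple_le_iff]; exact hmemL
    apply eq_of_le_of_finrank_le hle
    rw [hfrL]
    have hi : IsIntegral K⟮θ⟯ θ' := hiK'.tower_top
    rw [adjoin.finrank hi]
    have hpos := minpoly.natDegree_pos hi
    have hne1 : (minpoly K⟮θ⟯ θ').natDegree ≠ 1 := by
      intro h1
      obtain ⟨z, hz⟩ := (minpoly.natDegree_eq_one_iff).1 h1
      exact hθ'L (hz ▸ z.2)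
    omega
  have hyE : y ∈ K⟮θ'⟯⟮θ⟯ := by
    have h1 : y ∈ K⟮θ⟯⟮θ'⟯ := by rw [hLL]; exact mem_adjoin_simple_self _ y
    have h2 : y ∈ K⟮θ⟯⟮θ'⟯.restrictScalars K := h1
    rw [adjoin_simple_adjoin_simple, Set.pair_comm, ← adjoin_simple_adjoin_simple] at h2
    exact h2
  -- the field N over E = K(θ')
  have hEN : K⟮θ'⟯ ≤ K⟮θ, y⟯ := by
    rw [adjoin_simple_le_iff]; exact hmem
  have hME : extendScalars hEN ≤ K⟮θ'⟯⟮θ⟯ := by
    intro x hx
    have hx' : x ∈ K⟮θ, y⟯ := hx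
    have hle : K⟮θ, y⟯ ≤ K⟮θ'⟯⟮θ⟯.restrictScalars K := by
      rw [adjoin_le_iff]
      intro z hz
      simp only [Set.mem_insert_iff, Set.mem_singleton_iff] at hz
      rcases hz with hz | hz
      · have h1 : θ ∈ K⟮θ'⟯⟮θ⟯ := mem_adjoin_simple_self K⟮θ'⟯ θ
        rw [hz]
        exact (mem_restrictScalars K).2 h1
      · rw [hz]
        exact (mem_restrictScalars K).2 hyE
    exact hle hx'
  have hfrN : finrank K K⟮θ, y⟯ = n * 2 := by
    rw [← hrs]
    have h1 : finrank K (K⟮θ⟯⟮y⟯.restrictScalars K) = finrank K K⟮θ⟯⟮y⟯ := rfl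
    rw [h1, ← finrank_mul_finrank K K⟮θ⟯ K⟮θ⟯⟮y⟯, hfrL, finrank_adjoin hn2 h hmin]
  have hfrM : finrank K⟮θ'⟯ (extendScalars hEN) = 2 := by
    have h1 : finrank K (extendScalars hEN) = finrank K K⟮θ, y⟯ := rfl
    have h2 := finrank_mul_finrank K K⟮θ'⟯ (extendScalars hEN)
    rw [h1, hfrN, finrank_adjoin hn2 h' hmin'] at h2
    have h3 : 0 < n := by omega
    exact Nat.eq_of_mul_eq_mul_left h3 h2
  haveI : FiniteDimensional K⟮θ'⟯ (extendScalars hEN) :=
    FiniteDimensional.of_finrank_pos (by rw [hfrM]; norm_num)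
  haveI : Algebra.IsQuadraticExtension K⟮θ'⟯ (extendScalars hEN) := ⟨hfrM⟩
  have hcard : Nat.card (Gal((extendScalars hEN)/K⟮θ'⟯)) = 2 := by
    rw [IsGalois.card_aut_eq_finrank, hfrM]
  obtain ⟨σ, hσ⟩ : ∃ σ : Gal((extendScalars hEN)/K⟮θ'⟯), σ ≠ 1 := by
    by_contra hcon
    push Not at hcon
    have : Subsingleton (Gal((extendScalars hEN)/K⟮θ'⟯)) := ⟨fun a b => by rw [hcon a, hcon b]⟩
    have := Nat.card_eq_one_iff_unique.2 ⟨this, ⟨1⟩⟩
    rw [hcard] at this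
    norm_num at this
  apply hσ
  have hθN : θ ∈ extendScalars hEN := subset_adjoin K {θ, y} (by simp)
  have hyN : y ∈ extendScalars hEN := subset_adjoin K {θ, y} (by simp)
  refine fix_all (extendScalars hEN) θ hME hθN σ ?_
  exact fix_lemma (M := extendScalars hEN) (σ : extendScalars hEN →+* extendScalars hEN)
    ⟨θ, hθN⟩ ⟨y, hyN⟩ δ (mq n) h hyy huniq

end Gen

end Pool.Helper99.OrdField
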