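import Mathlib

set_option autoImplicit false

namespace Pool.Helper99.OrdField

theorem computable_find {α : Type*} [Primcodable α] (p : α → ℕ → Bool) (hp : Computable₂ p)
    (h : ∀ a, ∃ n, p a n = true) :
    ∃ f : α → ℕ, Computable f ∧ ∀ a, p a (f a) = true := by
  classical
  refine ⟨fun a => Nat.find (h a), ?_, fun a => Nat.find_spec (h a)⟩
  have h1 : Partrec fun a => Nat.rfind fun n => (Part.some (p a n) : Part Bool) :=
    Partrec.rfind hp.partrec₂
  refine Partrec.of_eq h1 ?_
  intro a
  apply Part.eq_some_iff.2
  apply Nat.mem_rfind.2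
  constructor
  · simp only [Part.mem_some_iff]
    exact (Nat.find_spec (h a)).symm
  · intro m hm
    simp only [Part.mem_some_iff]
    have := Nat.find_min (h a) hm
    simp only [Bool.not_eq_true] at this
    exact this.symm

/-- A field that is the image of a computable algebra of codes with decidable equality has a
computable presentation. -/
theorem exists_presentation {F : Type*} [Field F] [Infinite F] (v : ℕ → F)
    (hv : Function.Surjective v) (add mul : ℕ → ℕ → ℕ) (hadd : Computable₂ add)
    (hmul : Computable₂ mul) (hva : ∀ a b, v (add a b) = v a + v b)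
    (hvm : ∀ a b, v (mul a b) = v a * v b) (eqb : ℕ → ℕ → Bool) (heqb : Computable₂ eqb)
    (hee : ∀ a b, eqb a b = true ↔ v a = v b) :
    ∃ e : ℕ ≃ F,
        Computable₂ (fun a b : ℕ => e.symm (e a + e b)) ∧
        Computable₂ (fun a b : ℕ => e.symm (e a * e b)) ∧
        Computable (fun a : ℕ => e.symm (-(e a))) ∧
        Computable (fun a : ℕ => e.symm ((e a)⁻¹)) := by
  classical
  -- new codes
  let newb : ℕ → Bool := fun n => Nat.rec (motive := fun _ => Bool) true
    (fun m acc => acc && !(eqb m n)) n
  have hnewb : Computable newb := by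
    have hh : Computable₂ (fun (n : ℕ) (q : ℕ × Bool) => (q.2 && !(eqb q.1 n))) := by
      have h1 : Computable₂ (fun (n : ℕ) (q : ℕ × Bool) => eqb q.1 n) :=
        heqb.comp (Computable.fst.comp Computable.snd) Computable.fst
      have h2 : Computable₂ (fun (n : ℕ) (q : ℕ × Bool) => !(eqb q.1 n)) :=
        (Primrec.not.to_comp).comp h1
      exact (Primrec.and.to_comp).comp (Computable.snd.comp Computable.snd) h2
    exact Computable.nat_rec (f := fun n : ℕ => n) (g := fun _ : ℕ => true)
      (h := fun (n : ℕ) (q : ℕ × Bool) => (q.2 && !(eqb q.1 n)))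
      Computable.id (Computable.const true) hh
  have hnew : ∀ n, newb n = true ↔ ∀ m < n, v m ≠ v n := by
    intro n
    have key : ∀ k, (Nat.rec (motive := fun _ => Bool) true
        (fun m acc => acc && !(eqb m n)) k : Bool) = true ↔
        ∀ m < k, v m ≠ v n := by
      intro k
      induction k with
      | zero => simp
      | succ k ih =>
        simp only [Bool.and_eq_true, Bool.not_eq_true']
        rw [ih]
        constructor
        · rintro ⟨h1, h2⟩ m hm
          rcases Nat.lt_succ_iff_lt_or_eq.1 hm with h | h
          · exact h1 m h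
          · subst h
            intro h3
            rw [(hee m n).2 h3] at h2
            exact absurd h2 (by simp)
        · intro h
          refine ⟨fun m hm => h m (Nat.lt_succ_of_lt hm), ?_⟩
          have h2 := h k (Nat.lt_succ_self k)
          rw [Ne, ← hee] at h2
          simpa using h2
    exact key n
  let cnt : ℕ → ℕ := fun n => Nat.rec (motive := fun _ => ℕ) 0
    (fun m acc => acc + cond (newb m) 1 0) n
  have hcnt : Computable cnt := by
    have hh : Computable₂ (fun (_ : ℕ) (q : ℕ × ℕ) => (q.2 + cond (newb q.1) 1 0)) := by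
      have h1 : Computable₂ (fun (_ : ℕ) (q : ℕ × ℕ) => newb q.1) :=
        hnewb.comp (Computable.fst.comp Computable.snd)
      have h2 : Computable₂ (fun (_ : ℕ) (q : ℕ × ℕ) => cond (newb q.1) 1 0) :=
        Computable.cond h1 (Computable.const 1) (Computable.const 0)
      exact (Primrec.nat_add.to_comp).comp (Computable.snd.comp Computable.snd) h2
    exact Computable.nat_rec (f := fun n : ℕ => n) (g := fun _ : ℕ => 0)
      (h := fun (_ : ℕ) (q : ℕ × ℕ) => (q.2 + cond (newb q.1) 1 0))
      Computable.id (Computable.const 0) hh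
  have hcnt' : ∀ n, cnt n = Nat.count (fun n : ℕ => newb n = true) n := by
    intro n
    induction n with
    | zero => simp [cnt]
    | succ n ih =>
      rw [Nat.count_succ, ← ih]
      show cnt n + cond (newb n) 1 0 = _
      cases newb n <;> simp
  have hinf : (setOf (fun n : ℕ => newb n = true)).Infinite := by
    by_contra hfin
    rw [Set.not_infinite] at hfin
    have hs : Function.Surjective (fun n : (setOf (fun n : ℕ => newb n = true)) => v n.1) := by
      intro x
      have hx : ∃ n, v n = x := hv x
      refine ⟨⟨Nat.find hx, ?_⟩, Nat.find_spec hx⟩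
      show newb _ = true
      rw [hnew]
      intro m hm h
      rw [Nat.find_spec hx] at h
      exact Nat.find_min hx hm h
    haveI := hfin.to_subtype
    exact (Finite.of_surjective _ hs).false
  obtain ⟨f, hf, hf2⟩ := computable_find (α := ℕ) (fun k n => newb n && (cnt n == k)) (by
      have h1 : Computable₂ (fun (_ n : ℕ) => newb n) := hnewb.comp Computable.snd
      have h2 : Computable₂ (fun (k n : ℕ) => (cnt n == k)) :=
        (Primrec.beq.to_comp).comp (hcnt.comp Computable.snd) Computable.fst
      exact (Primrec.and.to_comp).comp h1 h2) (by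
      intro k
      refine ⟨Nat.nth (fun n : ℕ => newb n = true) k, ?_⟩
      simp only [Bool.and_eq_true, beq_iff_eq]
      refine ⟨Nat.nth_mem_of_infinite hinf k, ?_⟩
      rw [hcnt']
      exact Nat.count_nth_of_infinite hinf k)
  have hf3 : ∀ k, newb (f k) = true ∧ cnt (f k) = k := by
    intro k
    have := hf2 k
    simpa only [Bool.and_eq_true, beq_iff_eq] using this
  have huniq : ∀ n m, newb n = true → newb m = true → v n = v m → n = m := by
    intro n m hn hm h
    rcases lt_trichotomy n m with h1 | h1 | h1
    · exact absurd h ((hnew m).1 hm n h1)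
    · exact h1
    · exact absurd h.symm ((hnew n).1 hn m h1)
  have hinj : Function.Injective (fun k => v (f k)) := by
    intro k k' h
    have h1 := huniq _ _ (hf3 k).1 (hf3 k').1 h
    rw [← (hf3 k).2, ← (hf3 k').2, h1]
  have hsurj : Function.Surjective (fun k => v (f k)) := by
    intro x
    have hx : ∃ n, v n = x := hv x
    have hnx : newb (Nat.find hx) = true := by
      rw [hnew]
      intro m hm h
      rw [Nat.find_spec hx] at h
      exact Nat.find_min hx hm h
    refine ⟨cnt (Nat.find hx), ?_⟩
    have h1 : f (cnt (Nat.find hx)) = Nat.find hx := by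
      apply Nat.count_injective (p := fun n => newb n = true) (hf3 _).1 hnx
      rw [← hcnt', ← hcnt', (hf3 _).2]
    show v (f (cnt (Nat.find hx))) = x
    rw [h1]; exact Nat.find_spec hx
  let e : ℕ ≃ F := Equiv.ofBijective _ ⟨hinj, hsurj⟩
  have he : ∀ k, e k = v (f k) := fun k => rfl
  obtain ⟨z, hz⟩ := hsurj 0
  obtain ⟨o, ho⟩ := hsurj 1
  have hz' : e z = 0 := hz
  have ho' : e o = 1 := ho
  -- general search
  have search2 : ∀ (op : ℕ → ℕ → ℕ) (_ : Computable₂ op) (op' : F → F → F),
      (∀ a b, v (op a b) = op' (v a) (v b)) → Computable₂ (fun a b : ℕ => e.symm (op' (e a) (e b))) := by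
    intro op hop op' hop'
    obtain ⟨g, hg, hg2⟩ := computable_find (α := ℕ × ℕ)
      (fun q k => eqb (f k) (op (f q.1) (f q.2))) (by
        have h1 : Computable₂ (fun (_ : ℕ × ℕ) (k : ℕ) => f k) := hf.comp Computable.snd
        have h2 : Computable₂ (fun (q : ℕ × ℕ) (_ : ℕ) => op (f q.1) (f q.2)) :=
          hop.comp (hf.comp (Computable.fst.comp Computable.fst))
            (hf.comp (Computable.snd.comp Computable.fst))
        exact heqb.comp h1 h2) (by
        rintro ⟨a, b⟩
        obtain ⟨k, hk⟩ := hsurj (v (op (f a) (f b)))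
        exact ⟨k, (hee _ _).2 hk⟩)
    refine Computable.of_eq hg ?_
    rintro ⟨a, b⟩
    have h1 := (hee _ _).1 (hg2 (a, b))
    show g (a, b) = e.symm (op' (e a) (e b))
    rw [Equiv.eq_symm_apply, he, h1, hop', he, he]
  have hA := search2 add hadd (· + ·) hva
  have hM := search2 mul hmul (· * ·) hvm
  refine ⟨e, hA, hM, ?_, ?_⟩
  · obtain ⟨g, hg, hg2⟩ := computable_find (α := ℕ)
      (fun a k => ((e.symm (e a + e k)) == z)) (by
        exact (Primrec.beq.to_comp).comp hA (Computable.const z)) (by
        intro a
        refine ⟨e.symm (-(e a)), ?_⟩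
        simp only [beq_iff_eq, Equiv.apply_symm_apply]
        rw [Equiv.symm_apply_eq, hz', add_neg_cancel])
    refine Computable.of_eq hg ?_
    intro a
    have h1 := hg2 a
    simp only [beq_iff_eq] at h1
    rw [Equiv.symm_apply_eq, hz'] at h1
    rw [Equiv.eq_symm_apply]
    exact (neg_eq_of_add_eq_zero_right h1).symm
  · obtain ⟨g, hg, hg2⟩ := computable_find (α := ℕ)
      (fun a k => ((e.symm (e a * e k)) == o) || ((a == z) && (k == z))) (by
        have h1 : Computable₂ (fun (a k : ℕ) => ((e.symm (e a * e k)) == o)) :=
          (Primrec.beq.to_comp).comp hM (Computable.const o)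
        have h2 : Computable₂ (fun (a _ : ℕ) => (a == z)) :=
          (Primrec.beq.to_comp).comp Computable.fst (Computable.const z)
        have h3 : Computable₂ (fun (_ k : ℕ) => (k == z)) :=
          (Primrec.beq.to_comp).comp Computable.snd (Computable.const z)
        exact (Primrec.or.to_comp).comp h1 ((Primrec.and.to_comp).comp h2 h3)) (by
        intro a
        by_cases ha : a = z
        · exact ⟨z, by simp [ha]⟩
        · refine ⟨e.symm (e a)⁻¹, ?_⟩
          have h1 : e a ≠ 0 := by
            rw [← hz']
            exact fun h => ha (e.injective h)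
          simp only [Equiv.apply_symm_apply, Bool.or_eq_true, beq_iff_eq]
          left
          rw [Equiv.symm_apply_eq, ho', mul_inv_cancel₀ h1])
    refine Computable.of_eq hg ?_
    intro a
    have h1 := hg2 a
    simp only [Bool.or_eq_true, Bool.and_eq_true, beq_iff_eq] at h1
    rw [Equiv.eq_symm_apply]
    rcases h1 with h1 | ⟨h1, h2⟩
    · rw [Equiv.symm_apply_eq, ho'] at h1
      exact (inv_eq_of_mul_eq_one_right h1).symm
    · rw [h2, h1, hz', inv_zero]

end Pool.Helper99.OrdField
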