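import Mathlib

set_option autoImplicit false

open MvPolynomial

namespace Pool.Helper99.OrdField

/-- formal differences of finite sums of words in variables indexed by ℕ -/
abbrev T : Type := List (List ℕ) × List (List ℕ)

/-! ### Counting relation -/

section Count

variable {α : Type*}

/-- `A` and `B` have the same counts up to the relation `R` -/
def permR (R : α → α → Prop) [DecidableRel R] (A B : List α) : Prop :=
  ∀ w ∈ A ++ B, (A.filter (fun v => decide (R v w))).length =
    (B.filter (fun v => decide (R v w))).length

theorem permR_primrec [Primcodable α] {R : α → α → Prop} [DecidableRel R] (hR : PrimrecRel R) :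
    PrimrecRel (permR R) := by
  have h1 : PrimrecRel (fun (w : α) (q : List α × List α) =>
      (q.1.filter (fun v => decide (R v w))).length =
      (q.2.filter (fun v => decide (R v w))).length) := by
    have hf := hR.listFilter
    have ha : Primrec₂ (fun (w : α) (q : List α × List α) =>
        (q.1.filter (fun v => decide (R v w))).length) :=
      Primrec.list_length.comp (hf.comp (Primrec.fst.comp Primrec.snd) Primrec.fst)
    have hb : Primrec₂ (fun (w : α) (q : List α × List α) =>
        (q.2.filter (fun v => decide (R v w))).length) :=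
      Primrec.list_length.comp (hf.comp (Primrec.snd.comp Primrec.snd) Primrec.fst)
    exact Primrec.eq.comp ha hb
  have h2 := h1.forall_mem_list
  have h3 : PrimrecPred (fun q : List α × List α =>
      ∀ w ∈ q.1 ++ q.2, (q.1.filter (fun v => decide (R v w))).length =
      (q.2.filter (fun v => decide (R v w))).length) :=
    h2.comp (Primrec.list_append.comp Primrec.fst Primrec.snd) Primrec.id
  exact h3

end Count

lemma permR_eq_iff (A B : List ℕ) : permR (· = ·) A B ↔ A.Perm B := by
  rw [List.perm_iff_count]
  have hc : ∀ (L : List ℕ) (w : ℕ), (L.filter (fun v => decide (v = w))).length = L.count w := by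
    intro L w
    rw [← List.countP_eq_length_filter, List.count]
    congr 1
  constructor
  · intro h w
    by_cases hw : w ∈ A ++ B
    · have := h w hw
      rw [hc, hc] at this
      exact this
    · simp only [List.mem_append, not_or] at hw
      rw [List.count_eq_zero_of_not_mem hw.1, List.count_eq_zero_of_not_mem hw.2]
  · intro h w _
    rw [hc, hc]; exact h w

theorem perm_primrec : PrimrecRel (fun A B : List ℕ => A.Perm B) :=
  (permR_primrec (R := fun a b : ℕ => a = b) Primrec.eq).of_eq permR_eq_iff

/-! ### Evaluation into polynomials -/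

noncomputable def mono (w : List ℕ) : MvPolynomial ℕ ℤ := (w.map X).prod

noncomputable def sumM (A : List (List ℕ)) : MvPolynomial ℕ ℤ := (A.map mono).sum

noncomputable def psi (t : T) : MvPolynomial ℕ ℤ := sumM t.1 - sumM t.2

/-- exponent vector -/
noncomputable def expo (w : List ℕ) : ℕ →₀ ℕ := Multiset.toFinsupp (w : Multiset ℕ)

lemma mono_eq (w : List ℕ) : mono w = monomial (expo w) 1 := by
  induction w with
  | nil => simp [mono, expo]
  | cons a w ih =>
    have h1 : mono (a :: w) = X a * mono w := by simp [mono]
    have h2 : expo (a :: w) = Finsupp.single a 1 + expo w := by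
      rw [expo, expo, ← Multiset.cons_coe, ← Multiset.singleton_add, map_add,
        Multiset.toFinsupp_singleton]
    rw [h1, h2, ih, X, monomial_mul, one_mul]

lemma expo_eq_iff (v w : List ℕ) : expo v = expo w ↔ v.Perm w := by
  rw [expo, expo, Multiset.toFinsupp.injective.eq_iff]
  exact Multiset.coe_eq_coe

open Classical in
lemma coeff_sumM (A : List (List ℕ)) (m : ℕ →₀ ℕ) :
    coeff m (sumM A) = ((A.filter (fun v => decide (expo v = m))).length : ℤ) := by
  induction A with
  | nil => simp [sumM]
  | cons a A ih =>
    have h1 : sumM (a :: A) = mono a + sumM A := by simp [sumM]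
    rw [h1, coeff_add, ih, mono_eq, coeff_monomial]
    by_cases h : expo a = m
    · simp [h]; ring
    · simp [h]

theorem sumM_eq_iff (A B : List (List ℕ)) : sumM A = sumM B ↔ permR List.Perm A B := by
  classical
  have hf : ∀ (L : List (List ℕ)) (w : List ℕ),
      (L.filter (fun v => decide (v.Perm w))).length =
        (L.filter (fun v => decide (expo v = expo w))).length := by
    intro L w
    congr 2
    funext v
    simp only [expo_eq_iff]
  constructor
  · intro h w _
    have := congrArg (coeff (expo w)) h
    rw [coeff_sumM, coeff_sumM] at this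
    rw [hf, hf]
    exact_mod_cast this
  · intro h
    ext m
    rw [coeff_sumM, coeff_sumM]
    by_cases hm : ∃ w ∈ A ++ B, expo w = m
    · obtain ⟨w, hw, rfl⟩ := hm
      have := h w hw
      rw [hf, hf] at this
      exact_mod_cast this
    · push Not at hm
      have h1 : A.filter (fun v => decide (expo v = m)) = [] := by
        rw [List.filter_eq_nil_iff]
        intro a ha
        simpa using hm a (by simp [ha])
      have h2 : B.filter (fun v => decide (expo v = m)) = [] := by
        rw [List.filter_eq_nil_iff]
        intro a ha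
        simpa using hm a (by simp [ha])
      rw [h1, h2]

/-- equality of formal terms, decidable -/
def eqT (t s : T) : Prop := permR List.Perm (t.1 ++ s.2) (s.1 ++ t.2)

theorem eqT_iff (t s : T) : eqT t s ↔ psi t = psi s := by
  rw [eqT, ← sumM_eq_iff, psi, psi, sub_eq_sub_iff_add_eq_add]
  simp only [sumM, List.map_append, List.sum_append]

theorem eqT_primrec : PrimrecRel eqT := by
  have h := permR_primrec (R := fun A B : List ℕ => A.Perm B) perm_primrec
  have h1 : PrimrecPred (fun q : T × T =>
      permR List.Perm (q.1.1 ++ q.2.2) (q.2.1 ++ q.1.2)) :=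
    h.comp (Primrec.list_append.comp (Primrec.fst.comp Primrec.fst)
        (Primrec.snd.comp Primrec.snd))
      (Primrec.list_append.comp (Primrec.fst.comp Primrec.snd)
        (Primrec.snd.comp Primrec.fst))
  exact h1

/-! ### Operations -/

def addT (t s : T) : T := (t.1 ++ s.1, t.2 ++ s.2)

def mulL (A B : List (List ℕ)) : List (List ℕ) := A.flatMap (fun w => B.map (fun v => w ++ v))

def mulT (t s : T) : T := (mulL t.1 s.1 ++ mulL t.2 s.2, mulL t.1 s.2 ++ mulL t.2 s.1)

def negT (t : T) : T := (t.2, t.1)

def zeroT : T := ([], [])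
def oneT : T := ([[]], [])

theorem addT_primrec : Primrec₂ addT :=
  Primrec.pair
    (Primrec.list_append.comp (Primrec.fst.comp Primrec.fst) (Primrec.fst.comp Primrec.snd))
    (Primrec.list_append.comp (Primrec.snd.comp Primrec.fst) (Primrec.snd.comp Primrec.snd))

theorem mulL_primrec : Primrec₂ mulL := by
  have h1 : Primrec₂ (fun (q : List (List ℕ) × List (List ℕ)) (w : List ℕ) =>
      q.2.map (fun v => w ++ v)) := by
    have h2 : Primrec₂ (fun (p : (List (List ℕ) × List (List ℕ)) × List ℕ) (v : List ℕ) =>
        p.2 ++ v) :=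
      Primrec.list_append.comp (Primrec.snd.comp Primrec.fst) Primrec.snd
    exact Primrec.list_map (Primrec.snd.comp Primrec.fst) h2
  exact Primrec.list_flatMap Primrec.fst h1

theorem mulT_primrec : Primrec₂ mulT :=
  Primrec.pair
    (Primrec.list_append.comp
      (mulL_primrec.comp (Primrec.fst.comp Primrec.fst) (Primrec.fst.comp Primrec.snd))
      (mulL_primrec.comp (Primrec.snd.comp Primrec.fst) (Primrec.snd.comp Primrec.snd)))
    (Primrec.list_append.comp
      (mulL_primrec.comp (Primrec.fst.comp Primrec.fst) (Primrec.snd.comp Primrec.snd))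
      (mulL_primrec.comp (Primrec.snd.comp Primrec.fst) (Primrec.fst.comp Primrec.snd)))

theorem negT_primrec : Primrec negT := Primrec.pair Primrec.snd Primrec.fst

lemma sumM_append (A B : List (List ℕ)) : sumM (A ++ B) = sumM A + sumM B := by
  simp [sumM]

lemma sumM_mulL (A B : List (List ℕ)) : sumM (mulL A B) = sumM A * sumM B := by
  have hm : ∀ w v : List ℕ, mono (w ++ v) = mono w * mono v := by
    intro w v; simp [mono]
  have h1 : ∀ (w : List ℕ) (B : List (List ℕ)), sumM (B.map (fun v => w ++ v)) = mono w * sumM B := by
    intro w B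
    induction B with
    | nil => simp [sumM]
    | cons b B ih =>
      have h2 : sumM (b :: B) = mono b + sumM B := by simp [sumM]
      have h3 : sumM ((b :: B).map (fun v => w ++ v)) = mono (w ++ b) +
          sumM (B.map (fun v => w ++ v)) := by simp [sumM]
      rw [h3, ih, h2, hm]; ring
  induction A with
  | nil => simp [mulL, sumM]
  | cons a A ih =>
    have h2 : sumM (a :: A) = mono a + sumM A := by simp [sumM]
    have h3 : mulL (a :: A) B = B.map (fun v => a ++ v) ++ mulL A B := by simp [mulL]
    rw [h3, sumM_append, ih, h1, h2]; ring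

lemma psi_addT (t s : T) : psi (addT t s) = psi t + psi s := by
  simp only [psi, addT, sumM_append]; ring

lemma psi_mulT (t s : T) : psi (mulT t s) = psi t * psi s := by
  simp only [psi, mulT, sumM_append, sumM_mulL]; ring

lemma psi_negT (t : T) : psi (negT t) = - psi t := by
  simp only [psi, negT]; ring

lemma psi_zeroT : psi zeroT = 0 := by simp [psi, zeroT, sumM]
lemma psi_oneT : psi oneT = 1 := by simp [psi, oneT, sumM, mono]

lemma psi_surjective : Function.Surjective psi := by
  intro p
  induction p using MvPolynomial.induction_on with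
  | C a =>
    refine ⟨(List.replicate a.toNat [], List.replicate (-a).toNat []), ?_⟩
    simp only [psi, sumM, List.map_replicate, List.sum_replicate, mono, List.map_nil,
      List.prod_nil, nsmul_eq_mul, mul_one]
    have h1 : (a : ℤ) = (a.toNat : ℤ) - ((-a).toNat : ℤ) := by omega
    have h2 : (C a : MvPolynomial ℕ ℤ) = ((a : ℤ) : MvPolynomial ℕ ℤ) := by
      simp
    rw [h2]
    conv_rhs => rw [h1]
    push_cast
    rfl
  | add p q hp hq =>
    obtain ⟨t, rfl⟩ := hp
    obtain ⟨s, rfl⟩ := hq
    exact ⟨addT t s, psi_addT t s⟩
  | mul_X p n hp =>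
    obtain ⟨t, rfl⟩ := hp
    refine ⟨mulT t ([[n]], []), ?_⟩
    rw [psi_mulT]
    congr 1
    simp [psi, sumM, mono]

/-! ### Ideal membership certificates -/

section Cert

variable (rel : ℕ → T)

def sigma (c : List (T × ℕ)) : T :=
  c.foldr (fun p acc => addT (mulT p.1 (rel p.2)) acc) zeroT

variable {rel}

theorem sigma_primrec (hrel : Primrec rel) : Primrec (sigma rel) := by
  have h1 : Primrec₂ (fun (_ : List (T × ℕ)) (q : (T × ℕ) × T) =>
      addT (mulT q.1.1 (rel q.1.2)) q.2) := by
    refine addT_primrec.comp (mulT_primrec.comp ?_ ?_) ?_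
    · exact Primrec.fst.comp (Primrec.fst.comp Primrec.snd)
    · exact hrel.comp (Primrec.snd.comp (Primrec.fst.comp Primrec.snd))
    · exact Primrec.snd.comp Primrec.snd
  exact Primrec.list_foldr Primrec.id (Primrec.const zeroT) h1

variable (rel) in
noncomputable def I : Ideal (MvPolynomial ℕ ℤ) := Ideal.span (Set.range fun r => psi (rel r))

lemma psi_sigma_mem (c : List (T × ℕ)) : psi (sigma rel c) ∈ I rel := by
  induction c with
  | nil =>
    have : sigma rel [] = zeroT := rfl
    rw [this, psi_zeroT]; exact zero_mem _
  | cons p c ih =>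
    have : sigma rel (p :: c) = addT (mulT p.1 (rel p.2)) (sigma rel c) := rfl
    rw [this, psi_addT, psi_mulT]
    exact add_mem (Ideal.mul_mem_left _ _ (Ideal.subset_span ⟨p.2, rfl⟩)) ih

lemma sigma_append (c c' : List (T × ℕ)) :
    psi (sigma rel (c ++ c')) = psi (sigma rel c) + psi (sigma rel c') := by
  induction c with
  | nil =>
    have : sigma rel [] = zeroT := rfl
    rw [this, psi_zeroT]; simp
  | cons p c ih =>
    have h1 : sigma rel (p :: c) = addT (mulT p.1 (rel p.2)) (sigma rel c) := rfl
    have h2 : sigma rel ((p :: c) ++ c') = addT (mulT p.1 (rel p.2)) (sigma rel (c ++ c')) := rfl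
    rw [h1, h2, psi_addT, psi_addT, ih]; ring

lemma exists_cert {p : MvPolynomial ℕ ℤ} (hp : p ∈ I rel) :
    ∃ c : List (T × ℕ), psi (sigma rel c) = p := by
  refine Submodule.span_induction ?_ ?_ ?_ ?_ hp
  · rintro x ⟨r, rfl⟩
    refine ⟨[(oneT, r)], ?_⟩
    have h1 : sigma rel [(oneT, r)] = addT (mulT oneT (rel r)) zeroT := rfl
    rw [h1, psi_addT, psi_mulT, psi_oneT, psi_zeroT]; ring
  · exact ⟨[], psi_zeroT⟩
  · rintro x y _ _ ⟨c, hc⟩ ⟨c', hc'⟩
    exact ⟨c ++ c', by rw [sigma_append, hc, hc']⟩
  · rintro a x _ ⟨c, hc⟩
    obtain ⟨t, rfl⟩ := psi_surjective a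
    refine ⟨c.map (fun p => (mulT t p.1, p.2)), ?_⟩
    rw [← hc]
    clear hc
    induction c with
    | nil =>
      have : sigma rel [] = zeroT := rfl
      simp only [List.map_nil]
      rw [this, psi_zeroT, smul_zero]
    | cons p c ih =>
      have h1 : sigma rel (p :: c) = addT (mulT p.1 (rel p.2)) (sigma rel c) := rfl
      have h2 : sigma rel ((p :: c).map (fun p => (mulT t p.1, p.2))) =
        addT (mulT (mulT t p.1) (rel p.2)) (sigma rel (c.map (fun p => (mulT t p.1, p.2)))) := rfl
      rw [h1, h2, psi_addT, psi_addT, ih, psi_mulT, psi_mulT, psi_mulT, smul_eq_mul, smul_eq_mul]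
      ring

end Cert

end Pool.Helper99.OrdField
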