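import Mathlib
import Pool.Agent.Helper99.OrdField.Alg

set_option autoImplicit false
set_option linter.unusedSectionVars false
set_option linter.style.haveILetI false

open Polynomial IntermediateField Module

namespace Pool.Helper99.OrdField

/-- The algebraic data. -/
structure Data where
  n : ℕ → ℕ
  hn5 : ∀ i, 5 ≤ n i
  h6 : ∀ i, (n i).Coprime 6
  hcop : ∀ i j, i ≠ j → (n i).Coprime (n j)
  θ : ℕ → ℝ
  hθ : ∀ i, aeval (θ i) (mq (n i)) = 0
  act : ℕ → Prop
  δ : ℕ → ℚ[X]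
  y : ℕ → ℝ
  hy : ∀ i, act i → y i ^ 2 = aeval (θ i) (δ i)
  hy0 : ∀ i, ¬ act i → y i = 0
  huniq : ∀ i, act i → ∀ x : ℝ, aeval x (mq (n i)) = 0 → 0 ≤ aeval x (δ i) → x = θ i
  hneg : ∀ i, act i → ∃ x : ℝ, aeval x (mq (n i)) = 0 ∧ aeval x (δ i) < 0

namespace Data

variable (D : Data)

lemma hn2 (i : ℕ) : 2 ≤ D.n i := by have := D.hn5 i; omega

/-- generators attached to a finite set of indices -/
def gens (S : Finset ℕ) : Set ℝ := {x | ∃ i ∈ S, x = D.θ i ∨ x = D.y i}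

noncomputable def B (S : Finset ℕ) : IntermediateField ℚ ℝ := adjoin ℚ (D.gens S)

lemma gens_insert (j : ℕ) (S : Finset ℕ) :
    D.gens (insert j S) = D.gens S ∪ {D.θ j, D.y j} := by
  ext x
  simp only [gens, Finset.mem_insert, Set.mem_setOf_eq, Set.mem_union, Set.mem_insert_iff,
    Set.mem_singleton_iff]
  constructor
  · rintro ⟨i, rfl | hi, h⟩
    · right; exact h
    · left; exact ⟨i, hi, h⟩
  · rintro (⟨i, hi, h⟩ | h)
    · exact ⟨i, Or.inr hi, h⟩
    · exact ⟨j, Or.inl rfl, h⟩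

lemma B_insert (j : ℕ) (S : Finset ℕ) :
    D.B (insert j S) = ((D.B S)⟮D.θ j, D.y j⟯).restrictScalars ℚ := by
  rw [B, gens_insert, ← adjoin_adjoin_left]
  rfl

lemma B_empty : D.B ∅ = ⊥ := by
  rw [B]
  have : D.gens ∅ = ∅ := by
    ext x; simp [gens]
  rw [this, adjoin_empty]

lemma B_mono {S T : Finset ℕ} (h : S ⊆ T) : D.B S ≤ D.B T := by
  apply adjoin.mono
  rintro x ⟨i, hi, hx⟩
  exact ⟨i, h hi, hx⟩

lemma θ_mem {S : Finset ℕ} {i : ℕ} (h : i ∈ S) : D.θ i ∈ D.B S :=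
  subset_adjoin ℚ _ ⟨i, h, Or.inl rfl⟩

lemma y_mem {S : Finset ℕ} {i : ℕ} (h : i ∈ S) : D.y i ∈ D.B S :=
  subset_adjoin ℚ _ ⟨i, h, Or.inr rfl⟩

open Classical in
noncomputable def d (i : ℕ) : ℕ := if D.act i then D.n i * 2 else D.n i

lemma odd_n (i : ℕ) : (D.n i).Coprime 2 := Nat.Coprime.coprime_dvd_right (by norm_num) (D.h6 i)

lemma d_coprime {i j : ℕ} (h : i ≠ j) : (D.d i).Coprime (D.n j) := by
  rw [d]
  split_ifs
  · apply Nat.Coprime.mul_left (D.hcop i j h) (D.odd_n j).symm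
  · exact D.hcop i j h

lemma d_pos (i : ℕ) : 0 < D.d i := by
  have := D.hn5 i
  rw [d]; split_ifs <;> omega

/-- y not in K(θ) -/
lemma y_not_mem {K : Type*} [Field K] [Algebra ℚ K] [Algebra K ℝ] [IsScalarTower ℚ K ℝ]
    (j : ℕ) (hmin : minpoly K (D.θ j) = (mq (D.n j)).map (algebraMap ℚ K)) (hact : D.act j) :
    D.y j ∉ K⟮D.θ j⟯ := by
  intro hmem
  obtain ⟨ρ, hρ, hneg⟩ := D.hneg j hact
  exact sqrt_not_mem (D.hn2 j) (D.hθ j) hmin hρ (D.δ j) hneg hmem (D.hy j hact)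

lemma exists_d {K : Type*} [Field K] [Algebra ℚ K] [Algebra K ℝ] [IsScalarTower ℚ K ℝ]
    (j : ℕ) (hact : D.act j) : D.y j ^ 2 = algebraMap K⟮D.θ j⟯ ℝ
      (aeval (AdjoinSimple.gen K (D.θ j)) (D.δ j)) := by
  have := (aeval_algebraMap_apply ℝ (AdjoinSimple.gen K (D.θ j)) (D.δ j))
  rw [AdjoinSimple.algebraMap_gen] at this
  rw [D.hy j hact, this]

lemma minpoly_y {K : Type*} [Field K] [Algebra ℚ K] [Algebra K ℝ] [IsScalarTower ℚ K ℝ]
    (j : ℕ) (hmin : minpoly K (D.θ j) = (mq (D.n j)).map (algebraMap ℚ K)) (hact : D.act j) :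
    IsIntegral K⟮D.θ j⟯ (D.y j) ∧ minpoly K⟮D.θ j⟯ (D.y j) =
      X ^ 2 - C (aeval (AdjoinSimple.gen K (D.θ j)) (D.δ j)) := by
  apply natDegree_minpoly_sqrt (D.exists_d j hact)
  rintro ⟨z, hz⟩
  exact D.y_not_mem j hmin hact (hz ▸ z.2)

lemma finrank_step {K : Type*} [Field K] [Algebra ℚ K] [Algebra K ℝ] [IsScalarTower ℚ K ℝ]
    (j : ℕ) (hmin : minpoly K (D.θ j) = (mq (D.n j)).map (algebraMap ℚ K)) :
    finrank K K⟮D.θ j, D.y j⟯ = D.d j := by
  have h1 := finrank_adjoin (D.hn2 j) (D.hθ j) hmin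
  by_cases hact : D.act j
  · obtain ⟨hi, hm⟩ := D.minpoly_y j hmin hact
    have h2 : finrank K⟮D.θ j⟯ K⟮D.θ j⟯⟮D.y j⟯ = 2 := by
      rw [adjoin.finrank hi, hm, natDegree_X_pow_sub_C]
    have h3 : finrank K K⟮D.θ j⟯⟮D.y j⟯ = D.n j * 2 := by
      rw [← finrank_mul_finrank K K⟮D.θ j⟯ K⟮D.θ j⟯⟮D.y j⟯, h2, h1]
    have h4 : finrank K (K⟮D.θ j⟯⟮D.y j⟯.restrictScalars K) = finrank K K⟮D.θ j⟯⟮D.y j⟯ := rfl
    rw [← adjoin_simple_adjoin_simple, h4, h3, d, if_pos hact]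
  · have h2 : K⟮D.θ j, D.y j⟯ = K⟮D.θ j⟯ := by
      apply le_antisymm
      · rw [adjoin_le_iff]
        intro x hx
        simp only [Set.mem_insert_iff, Set.mem_singleton_iff] at hx
        rcases hx with hx | hx
        · rw [hx]; exact mem_adjoin_simple_self K _
        · rw [hx, D.hy0 j hact]; exact zero_mem _
      · rw [adjoin_simple_le_iff]
        exact subset_adjoin K _ (by simp)
    rw [h2, h1, d, if_neg hact]

theorem finrank_B (S : Finset ℕ) :
    FiniteDimensional ℚ (D.B S) ∧ finrank ℚ (D.B S) = ∏ i ∈ S, D.d i := by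
  induction S using Finset.induction_on with
  | empty =>
    rw [B_empty]
    constructor
    · infer_instance
    · simp
  | insert j S hj ih =>
    obtain ⟨h1, h2⟩ := ih
    have hcop : (finrank ℚ (D.B S)).Coprime (D.n j) := by
      rw [h2]
      apply Nat.Coprime.prod_left
      intro i hi
      exact D.d_coprime (fun h => hj (h ▸ hi))
    have hmin := minpoly_eq (D.B S) (D.hn2 j) hcop (D.hθ j)
    have h3 := D.finrank_step j hmin
    haveI : FiniteDimensional (D.B S) (D.B S)⟮D.θ j, D.y j⟯ :=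
      FiniteDimensional.of_finrank_pos (by rw [h3]; exact D.d_pos j)
    have h4 : FiniteDimensional ℚ (D.B S)⟮D.θ j, D.y j⟯ := FiniteDimensional.trans ℚ (D.B S) _
    rw [B_insert]
    constructor
    · exact h4
    · have h5 : finrank ℚ ((D.B S)⟮D.θ j, D.y j⟯.restrictScalars ℚ) =
          finrank ℚ (D.B S)⟮D.θ j, D.y j⟯ := rfl
      rw [h5, ← finrank_mul_finrank ℚ (D.B S) (D.B S)⟮D.θ j, D.y j⟯, h2, h3,
        Finset.prod_insert hj, mul_comm]

theorem minpoly_B {S : Finset ℕ} {j : ℕ} (hj : j ∉ S) :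
    minpoly (D.B S) (D.θ j) = (mq (D.n j)).map (algebraMap ℚ (D.B S)) := by
  obtain ⟨h1, h2⟩ := D.finrank_B S
  refine minpoly_eq (D.B S) (D.hn2 j) ?_ (D.hθ j)
  rw [h2]
  apply Nat.Coprime.prod_left
  intro i hi
  exact D.d_coprime (fun h => hj (h ▸ hi))

/-- uniqueness of the roots -/
theorem unique_root_B {S : Finset ℕ} {j : ℕ} {x : ℝ} (hx : x ∈ D.B S)
    (hroot : aeval x (mq (D.n j)) = 0) : x = D.θ j := by
  -- enlarge S so that it contains j
  have hsub : S ⊆ insert j (S.erase j) := by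
    intro i hi
    by_cases h : i = j
    · simp [h]
    · simp [h, hi]
  have hx' : x ∈ D.B (insert j (S.erase j)) := D.B_mono hsub hx
  have hj : j ∉ S.erase j := by simp
  have hmin := D.minpoly_B hj
  rw [B_insert] at hx'
  have hx2 : x ∈ (D.B (S.erase j))⟮D.θ j, D.y j⟯ := hx'
  by_cases hact : D.act j
  · exact unique_root_adjoin2 (D.hn5 j) (D.h6 j) (D.hθ j) hmin (D.δ j) (D.hy j hact)
      (D.y_not_mem j hmin hact) (D.huniq j hact) hroot hx2
  · have h2 : (D.B (S.erase j))⟮D.θ j, D.y j⟯ ≤ (D.B (S.erase j))⟮D.θ j⟯ := by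
      rw [adjoin_le_iff]
      intro x hx
      simp only [Set.mem_insert_iff, Set.mem_singleton_iff] at hx
      rcases hx with hx | hx
      · rw [hx]; exact mem_adjoin_simple_self _ _
      · rw [hx, D.hy0 j hact]; exact zero_mem _
    exact unique_root_adjoin (D.hn5 j) (D.h6 j) (D.hθ j) hmin hroot (h2 hx2)

/-- the whole field -/
noncomputable def F : IntermediateField ℚ ℝ := adjoin ℚ {x | ∃ i, x = D.θ i ∨ x = D.y i}

lemma B_le_F (S : Finset ℕ) : D.B S ≤ D.F := by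
  apply adjoin.mono
  rintro x ⟨i, hi, hx⟩
  exact ⟨i, hx⟩

theorem mem_F_iff {x : ℝ} : x ∈ D.F ↔ ∃ S, x ∈ D.B S := by
  constructor
  · intro hx
    obtain ⟨T, hT, hxT⟩ := exists_finset_of_mem_adjoin hx
    have : ∃ S : Finset ℕ, (T : Set ℝ) ⊆ D.gens S := by
      clear hxT
      classical
      induction T using Finset.induction_on with
      | empty => exact ⟨∅, by simp⟩
      | insert a T ha ih =>
        obtain ⟨S, hS⟩ := ih (fun z hz => hT (by simp at hz ⊢; right; exact hz))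
        obtain ⟨i, hi⟩ := hT (show a ∈ ((insert a T : Finset ℝ) : Set ℝ) by simp)
        refine ⟨insert i S, ?_⟩
        intro z hz
        simp only [Finset.coe_insert, Set.mem_insert_iff] at hz
        rcases hz with hz | hz
        · rw [hz]; exact ⟨i, by simp, hi⟩
        · obtain ⟨k, hk, hk'⟩ := hS hz
          exact ⟨k, by simp [hk], hk'⟩
    obtain ⟨S, hS⟩ := this
    exact ⟨S, adjoin.mono ℚ _ _ hS hxT⟩
  · rintro ⟨S, hx⟩
    exact D.B_le_F S hx

theorem unique_root_F {j : ℕ} {x : ℝ} (hx : x ∈ D.F)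
    (hroot : aeval x (mq (D.n j)) = 0) : x = D.θ j := by
  obtain ⟨S, hS⟩ := D.mem_F_iff.1 hx
  exact D.unique_root_B hS hroot

end Data

/-! ### Extension of ring homomorphisms -/

lemma ext_one {K : Type*} [Field K] [Algebra K ℝ] {Q : Type*} [CommRing Q] (ψ : K →+* Q)
    {x : ℝ} (hx : IsIntegral K x) {q : Q} (hq : (minpoly K x).eval₂ ψ q = 0) :
    ∃ φ : K⟮x⟯ →+* Q, (∀ k : K, φ (algebraMap K K⟮x⟯ k) = ψ k) ∧
      φ (AdjoinSimple.gen K x) = q := by
  letI : Algebra K Q := ψ.toAlgebra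
  have h1 : aeval q (minpoly K (adjoin.powerBasis hx).gen) = 0 := by
    rw [adjoin.powerBasis_gen, minpoly_gen]
    exact hq
  refine ⟨((adjoin.powerBasis hx).lift q h1).toRingHom, ?_, ?_⟩
  · intro k
    exact ((adjoin.powerBasis hx).lift q h1).commutes k
  · have := (adjoin.powerBasis hx).lift_gen q h1
    rw [adjoin.powerBasis_gen] at this
    exact this

namespace Data

variable (D : Data)

/-- existence of the homomorphisms to an arbitrary commutative ℚ-algebra with the same relations -/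
theorem exists_hom_B {Q : Type*} [CommRing Q] [Algebra ℚ Q] (X Y : ℕ → Q)
    (hX : ∀ i, aeval (X i) (mq (D.n i)) = 0)
    (hY : ∀ i, D.act i → Y i ^ 2 = aeval (X i) (D.δ i)) (hY0 : ∀ i, ¬ D.act i → Y i = 0)
    (S : Finset ℕ) :
    ∃ ψ : D.B S →+* Q, ∀ i ∈ S, (∀ h : D.θ i ∈ D.B S, ψ ⟨D.θ i, h⟩ = X i) ∧
      (∀ h : D.y i ∈ D.B S, ψ ⟨D.y i, h⟩ = Y i) := by
  induction S using Finset.induction_on with
  | empty =>
    rw [B_empty]
    exact ⟨(algebraMap ℚ Q).comp ((botEquiv ℚ ℝ : (⊥ : IntermediateField ℚ ℝ) ≃ₐ[ℚ] ℚ) :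
      (⊥ : IntermediateField ℚ ℝ) →+* ℚ), by simp⟩
  | insert j S hj ih =>
    obtain ⟨ψ, hψ⟩ := ih
    have hmin := D.minpoly_B hj
    have hint : IsIntegral (D.B S) (D.θ j) := integralK_of_root (D.hn2 j) (D.hθ j)
    have hq : (minpoly (D.B S) (D.θ j)).eval₂ ψ (X j) = 0 := by
      rw [hmin, eval₂_map]
      have : ψ.comp (algebraMap ℚ (D.B S)) = algebraMap ℚ Q := RingHom.ext_rat _ _
      rw [this]
      exact hX j
    obtain ⟨φ, hφ1, hφ2⟩ := ext_one ψ hint hq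
    -- second step
    have step2 : ∃ χ : (D.B S)⟮D.θ j⟯⟮D.y j⟯ →+* Q,
        (∀ k : (D.B S)⟮D.θ j⟯, χ (algebraMap _ _ k) = φ k) ∧
        χ (AdjoinSimple.gen (D.B S)⟮D.θ j⟯ (D.y j)) = Y j := by
      by_cases hact : D.act j
      · obtain ⟨hiy, hminy⟩ := D.minpoly_y j hmin hact
        apply ext_one φ hiy
        rw [hminy, eval₂_sub, eval₂_X_pow, eval₂_C, hY j hact]
        have h1 : φ (aeval (AdjoinSimple.gen (D.B S) (D.θ j)) (D.δ j)) =
            aeval (φ (AdjoinSimple.gen (D.B S) (D.θ j))) (D.δ j) := by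
          exact (aeval_algHom_apply φ.toRatAlgHom _ _).symm
        rw [h1, hφ2, sub_self]
      · have hy0 := D.hy0 j hact
        have hi0 : IsIntegral (D.B S)⟮D.θ j⟯ (D.y j) := by rw [hy0]; exact isIntegral_zero
        apply ext_one φ hi0
        rw [hy0, minpoly.zero, eval₂_X, hY0 j hact]
    obtain ⟨χ, hχ1, hχ2⟩ := step2
    rw [B_insert]
    have heq : (D.B S)⟮D.θ j, D.y j⟯.restrictScalars ℚ =
        ((D.B S)⟮D.θ j⟯⟮D.y j⟯.restrictScalars (D.B S)).restrictScalars ℚ := by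
      rw [adjoin_simple_adjoin_simple]
    rw [heq]
    refine ⟨χ, ?_⟩
    intro i hi
    rw [Finset.mem_insert] at hi
    rcases hi with rfl | hi
    · constructor
      · intro h
        have h1 := hχ1 (AdjoinSimple.gen (D.B S) (D.θ i))
        rw [hφ2] at h1
        exact h1
      · intro h
        exact hχ2
    · constructor
      · intro h
        have h1 := hχ1 (algebraMap (D.B S) _ ⟨D.θ i, D.θ_mem hi⟩)
        rw [hφ1, (hψ i hi).1] at h1
        exact h1
      · intro h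
        have h1 := hχ1 (algebraMap (D.B S) _ ⟨D.y i, D.y_mem hi⟩)
        rw [hφ1, (hψ i hi).2] at h1
        exact h1

end Data

end Pool.Helper99.OrdField
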