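import Mathlib
import Pool.Agent.Helper99.OrdField.Terms
import Pool.Agent.Helper99.OrdField.Tower

set_option autoImplicit false
set_option linter.style.haveILetI false

open MvPolynomial

namespace Pool.Helper99.OrdField

open Nat.Partrec (Code)

/-- stage `k` approximation of the diagonal computation -/
def H (i k : ℕ) : Option ℕ := Code.evaln k (Denumerable.ofNat Code i) i

theorem H_primrec : Primrec₂ H := by
  have h := Code.primrec_evaln
  have h2 : Primrec (fun q : ℕ × ℕ => ((q.2, Denumerable.ofNat Code q.1), q.1)) :=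
    Primrec.pair (Primrec.pair Primrec.snd ((Primrec.ofNat Code).comp Primrec.fst)) Primrec.fst
  exact h.comp h2

lemma H_unique {i k k' x x' : ℕ} (h : x ∈ H i k) (h' : x' ∈ H i k') : x = x' :=
  Part.mem_unique (Code.evaln_sound h) (Code.evaln_sound h')

/-- degrees -/
def nn (i : ℕ) : ℕ := 2 ^ (2 ^ (i + 1)) + 1

theorem pow_primrec : Primrec₂ (fun a b : ℕ => a ^ b) := Primrec₂.unpaired'.1 Nat.Primrec.pow

theorem nn_primrec : Primrec nn := by
  have h1 : Primrec (fun i : ℕ => 2 ^ (i + 1)) := pow_primrec.comp (Primrec.const 2) Primrec.succ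
  have h2 : Primrec (fun i : ℕ => 2 ^ (2 ^ (i + 1))) := pow_primrec.comp (Primrec.const 2) h1
  exact Primrec.succ.comp h2

lemma nn_eq (i : ℕ) : nn i = Nat.fermatNumber (i + 1) := rfl

lemma nn_ge (i : ℕ) : 5 ≤ nn i := by
  rw [nn_eq]
  have h := Nat.fermatNumber_mono (show 1 ≤ i + 1 by omega)
  simpa using h

lemma nn_odd (i : ℕ) : Odd (nn i) := Nat.odd_fermatNumber _

lemma nn_coprime (i j : ℕ) (h : i ≠ j) : (nn i).Coprime (nn j) := by
  rw [nn_eq, nn_eq]
  exact Nat.coprime_fermatNumber_fermatNumber (by omega)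

lemma nn_coprime6 (i : ℕ) : (nn i).Coprime 6 := by
  have h1 : (nn i).Coprime 2 := (Nat.coprime_two_right).2 (nn_odd i)
  have h2 : (nn i).Coprime 3 := by
    have h3 := Nat.coprime_fermatNumber_fermatNumber (m := i + 1) (n := 0) (by omega)
    simpa [nn_eq] using h3
  have : (6 : ℕ) = 2 * 3 := rfl
  rw [this]
  exact Nat.Coprime.mul_right h1 h2

/-! ### the relations as terms -/

def repl {α : Type*} (n : ℕ) (a : α) : List α := (List.range n).map (fun _ => a)

lemma repl_eq {α : Type*} (n : ℕ) (a : α) : repl n a = List.replicate n a := by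
  rw [repl, List.map_const', List.length_range]

theorem repl_primrec {α : Type*} [Primcodable α] : Primrec₂ (repl (α := α)) := by
  have h1 : Primrec₂ (fun (q : ℕ × α) (_ : ℕ) => q.2) := Primrec.snd.comp Primrec.fst
  exact Primrec.list_map (Primrec.list_range.comp Primrec.fst) h1

def relTheta (i : ℕ) : T :=
  ([repl (nn i) (3 * i), [], []], [[3 * i], [3 * i], [3 * i], [3 * i]])

def relYaux (v w : ℕ) (o : Option ℕ) : T :=
  Option.casesOn o ([[v]], []) (fun m => Nat.casesOn m ([[v, v], [w]], [])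
    (fun _ => ([[v, v], [w, w]], [[w]])))

def relY (u : ℕ) : T := relYaux (3 * u + 1) (3 * u.unpair.1) (H u.unpair.1 u.unpair.2)

def relC (u : ℕ) : T :=
  bif (H u.unpair.1 u.unpair.2.unpair.1).isSome && (H u.unpair.1 u.unpair.2.unpair.2).isSome then
    ([[3 * Nat.pair u.unpair.1 u.unpair.2.unpair.1 + 1]],
      [[3 * Nat.pair u.unpair.1 u.unpair.2.unpair.2 + 1]])
  else ([], [])

def relQ (u : ℕ) : T := (repl (u + 1) [3 * u + 2], [[]])

def relT (r : ℕ) : T :=
  if r % 4 = 0 then relTheta (r / 4) else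
  if r % 4 = 1 then relY (r / 4) else
  if r % 4 = 2 then relC (r / 4) else relQ (r / 4)

theorem sing_primrec {α β : Type*} [Primcodable α] [Primcodable β] {f : α → β} (hf : Primrec f) :
    Primrec (fun a => [f a]) := Primrec.list_cons.comp hf (Primrec.const [])

theorem three_mul_primrec {α : Type*} [Primcodable α] {f : α → ℕ} (hf : Primrec f) :
    Primrec (fun a => 3 * f a) := Primrec.nat_mul.comp (Primrec.const 3) hf

theorem relTheta_primrec : Primrec relTheta := by
  have h3 : Primrec (fun i : ℕ => 3 * i) := three_mul_primrec Primrec.id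
  have h1 : Primrec (fun i : ℕ => repl (nn i) (3 * i)) := repl_primrec.comp nn_primrec h3
  have h4 : Primrec (fun i : ℕ => [3 * i]) := sing_primrec h3
  exact Primrec.pair
    (Primrec.list_cons.comp h1 (Primrec.list_cons.comp (Primrec.const [])
      (Primrec.list_cons.comp (Primrec.const []) (Primrec.const []))))
    (Primrec.list_cons.comp h4 (Primrec.list_cons.comp h4
      (Primrec.list_cons.comp h4 (Primrec.list_cons.comp h4 (Primrec.const [])))))

theorem relYaux_primrec : Primrec (fun q : (ℕ × ℕ) × Option ℕ => relYaux q.1.1 q.1.2 q.2) := by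
  have hv : Primrec (fun q : (ℕ × ℕ) × Option ℕ => q.1.1) := Primrec.fst.comp Primrec.fst
  have h1 : Primrec (fun q : (ℕ × ℕ) × Option ℕ => (([[q.1.1]], []) : T)) :=
    Primrec.pair (sing_primrec (sing_primrec hv)) (Primrec.const [])
  have h2 : Primrec₂ (fun (q : (ℕ × ℕ) × Option ℕ) (m : ℕ) =>
      (Nat.casesOn m ([[q.1.1, q.1.1], [q.1.2]], [])
        (fun _ => ([[q.1.1, q.1.1], [q.1.2, q.1.2]], [[q.1.2]])) : T)) := by
    have hv2 : Primrec (fun p : ((ℕ × ℕ) × Option ℕ) × ℕ => p.1.1.1) :=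
      Primrec.fst.comp (Primrec.fst.comp Primrec.fst)
    have hw2 : Primrec (fun p : ((ℕ × ℕ) × Option ℕ) × ℕ => p.1.1.2) :=
      Primrec.snd.comp (Primrec.fst.comp Primrec.fst)
    have hv3 : Primrec (fun p : (((ℕ × ℕ) × Option ℕ) × ℕ) × ℕ => p.1.1.1.1) :=
      hv2.comp Primrec.fst
    have hw3 : Primrec (fun p : (((ℕ × ℕ) × Option ℕ) × ℕ) × ℕ => p.1.1.1.2) :=
      hw2.comp Primrec.fst
    have ha : Primrec (fun p : ((ℕ × ℕ) × Option ℕ) × ℕ =>
        (([[p.1.1.1, p.1.1.1], [p.1.1.2]], []) : T)) :=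
      Primrec.pair (Primrec.list_cons.comp (Primrec.list_cons.comp hv2 (sing_primrec hv2))
        (sing_primrec (sing_primrec hw2))) (Primrec.const [])
    have hb : Primrec (fun p : (((ℕ × ℕ) × Option ℕ) × ℕ) × ℕ =>
        (([[p.1.1.1.1, p.1.1.1.1], [p.1.1.1.2, p.1.1.1.2]], [[p.1.1.1.2]]) : T)) :=
      Primrec.pair (Primrec.list_cons.comp (Primrec.list_cons.comp hv3 (sing_primrec hv3))
        (sing_primrec (Primrec.list_cons.comp hw3 (sing_primrec hw3))))
        (sing_primrec (sing_primrec hw3))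
    exact Primrec.nat_casesOn (f := fun p : ((ℕ × ℕ) × Option ℕ) × ℕ => p.2) Primrec.snd ha hb
  exact (Primrec.option_casesOn Primrec.snd h1 h2).of_eq (fun q => rfl)

theorem relY_primrec : Primrec relY := by
  have h1 : Primrec (fun u : ℕ => 3 * u + 1) := Primrec.succ.comp (three_mul_primrec Primrec.id)
  have h2 : Primrec (fun u : ℕ => u.unpair.1) := Primrec.fst.comp Primrec.unpair
  have h3 : Primrec (fun u : ℕ => u.unpair.2) := Primrec.snd.comp Primrec.unpair
  have h4 : Primrec (fun u : ℕ => H u.unpair.1 u.unpair.2) := H_primrec.comp h2 h3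
  exact relYaux_primrec.comp (Primrec.pair (Primrec.pair h1 (three_mul_primrec h2)) h4)

theorem relC_primrec : Primrec relC := by
  have h2 : Primrec (fun u : ℕ => u.unpair.1) := Primrec.fst.comp Primrec.unpair
  have h3 : Primrec (fun u : ℕ => u.unpair.2) := Primrec.snd.comp Primrec.unpair
  have h4 : Primrec (fun u : ℕ => u.unpair.2.unpair.1) := h2.comp h3
  have h5 : Primrec (fun u : ℕ => u.unpair.2.unpair.2) := h3.comp h3
  have hs1 : Primrec (fun u : ℕ => (H u.unpair.1 u.unpair.2.unpair.1).isSome) :=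
    Primrec.option_isSome.comp (H_primrec.comp h2 h4)
  have hs2 : Primrec (fun u : ℕ => (H u.unpair.1 u.unpair.2.unpair.2).isSome) :=
    Primrec.option_isSome.comp (H_primrec.comp h2 h5)
  have hp1 : Primrec (fun u : ℕ => 3 * Nat.pair u.unpair.1 u.unpair.2.unpair.1 + 1) :=
    Primrec.succ.comp (three_mul_primrec (Primrec₂.natPair.comp h2 h4))
  have hp2 : Primrec (fun u : ℕ => 3 * Nat.pair u.unpair.1 u.unpair.2.unpair.2 + 1) :=
    Primrec.succ.comp (three_mul_primrec (Primrec₂.natPair.comp h2 h5))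
  exact Primrec.cond (Primrec.and.comp hs1 hs2)
    (Primrec.pair (sing_primrec (sing_primrec hp1)) (sing_primrec (sing_primrec hp2)))
    (Primrec.const ([], []))

theorem relQ_primrec : Primrec relQ := by
  have h1 : Primrec (fun u : ℕ => 3 * u + 2) :=
    Primrec.succ.comp (Primrec.succ.comp (three_mul_primrec Primrec.id))
  exact Primrec.pair (repl_primrec.comp Primrec.succ (sing_primrec h1)) (Primrec.const [[]])

theorem relT_primrec : Primrec relT := by
  have hm : Primrec (fun r : ℕ => r % 4) := Primrec.nat_mod.comp Primrec.id (Primrec.const 4)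
  have hd : Primrec (fun r : ℕ => r / 4) := Primrec.nat_div.comp Primrec.id (Primrec.const 4)
  exact Primrec.ite (Primrec.eq.comp hm (Primrec.const 0)) (relTheta_primrec.comp hd)
    (Primrec.ite (Primrec.eq.comp hm (Primrec.const 1)) (relY_primrec.comp hd)
      (Primrec.ite (Primrec.eq.comp hm (Primrec.const 2)) (relC_primrec.comp hd)
        (relQ_primrec.comp hd)))

end Pool.Helper99.OrdField
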