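import Mathlib
import Pool.Agent.Helper99.OrdField.Concrete

set_option autoImplicit false
set_option linter.style.haveILetI false

open MvPolynomial

namespace Pool.Helper99.OrdField

open Nat.Partrec (Code)

/-- the radicand polynomial attached to a value of the diagonal computation -/
noncomputable def dlt (x : ℕ) : Polynomial ℚ :=
  if x = 0 then - Polynomial.X else Polynomial.X - Polynomial.X ^ 2

lemma aeval_dlt_zero {A : Type*} [CommRing A] [Algebra ℚ A] (a : A) :
    Polynomial.aeval a (dlt 0) = - a := by simp [dlt]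

lemma aeval_dlt_succ {A : Type*} [CommRing A] [Algebra ℚ A] (m : ℕ) (a : A) :
    Polynomial.aeval a (dlt (m + 1)) = a - a ^ 2 := by simp [dlt]

lemma exists_data (n : ℕ) (hn : 5 ≤ n) (ho : Odd n) (o : Option ℕ) :
    ∃ θ y : ℝ, Polynomial.aeval θ (mq n) = 0 ∧ (o = none → y = 0) ∧
      ∀ x, o = some x → y ^ 2 = Polynomial.aeval θ (dlt x) ∧
        (∀ z : ℝ, Polynomial.aeval z (mq n) = 0 → 0 ≤ Polynomial.aeval z (dlt x) → z = θ) ∧
        (∃ z : ℝ, Polynomial.aeval z (mq n) = 0 ∧ Polynomial.aeval z (dlt x) < 0) := by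
  obtain ⟨r1, r2, r3, h1, h2, h2', h3, e1, e2, e3, hall⟩ := real_roots_cases hn ho
  match o with
  | none => exact ⟨r2, 0, e2, fun _ => rfl, fun x hx => by simp at hx⟩
  | some 0 =>
    refine ⟨r1, Real.sqrt (-r1), e1, fun h => by simp at h, ?_⟩
    intro x hx
    obtain rfl : x = 0 := by simpa using hx.symm
    simp only [aeval_dlt_zero]
    refine ⟨Real.sq_sqrt (by linarith), ?_, ⟨r2, e2, by linarith⟩⟩
    intro z hz hz2
    rcases hall z hz with h | h | h
    · exact h
    · rw [h] at hz2; linarith
    · rw [h] at hz2; linarith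
  | some (m + 1) =>
    refine ⟨r2, Real.sqrt (r2 - r2 ^ 2), e2, fun h => by simp at h, ?_⟩
    intro x hx
    obtain rfl : x = m + 1 := by simpa using hx.symm
    simp only [aeval_dlt_succ]
    refine ⟨Real.sq_sqrt (by nlinarith), ?_, ⟨r1, e1, by nlinarith⟩⟩
    intro z hz hz2
    rcases hall z hz with h | h | h
    · rw [h] at hz2; nlinarith
    · exact h
    · rw [h] at hz2; nlinarith

/-- the value of the diagonal computation, if any -/
def act (i : ℕ) : Prop := ∃ k, (H i k).isSome = true

open Classical in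
/-- first stage at which the computation has halted -/
noncomputable def stage (i : ℕ) : ℕ := if h : act i then Nat.find h else 0

noncomputable def val (i : ℕ) : Option ℕ := H i (stage i)

lemma val_isSome_iff (i : ℕ) : (val i).isSome = true ↔ act i := by
  constructor
  · intro h; exact ⟨_, h⟩
  · intro h
    classical
    rw [val, stage, dif_pos h]
    exact Nat.find_spec h

lemma H_eq_val {i k : ℕ} (h : (H i k).isSome = true) : H i k = val i := by
  have hv := (val_isSome_iff i).2 ⟨k, h⟩
  obtain ⟨x, hx⟩ := Option.isSome_iff_exists.1 h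
  obtain ⟨x', hx'⟩ := Option.isSome_iff_exists.1 hv
  rw [hx, hx', H_unique (i := i) (k := k) (k' := stage i) hx hx']

lemma H_cases (i k : ℕ) : H i k = none ∨ (H i k = val i ∧ act i) := by
  by_cases h : (H i k).isSome = true
  · exact Or.inr ⟨H_eq_val h, ⟨k, h⟩⟩
  · left
    simpa using h

lemma val_none {i : ℕ} (h : ¬ act i) : val i = none := by
  by_contra hc
  exact h ((val_isSome_iff i).1 (by simpa [Option.isSome_iff_ne_none] using hc))

noncomputable def theta (i : ℕ) : ℝ := (exists_data (nn i) (nn_ge i) (nn_odd i) (val i)).choose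

noncomputable def yy (i : ℕ) : ℝ :=
  (exists_data (nn i) (nn_ge i) (nn_odd i) (val i)).choose_spec.choose

lemma theta_yy_spec (i : ℕ) : Polynomial.aeval (theta i) (mq (nn i)) = 0 ∧
    (val i = none → yy i = 0) ∧
      ∀ x, val i = some x → yy i ^ 2 = Polynomial.aeval (theta i) (dlt x) ∧
        (∀ z : ℝ, Polynomial.aeval z (mq (nn i)) = 0 → 0 ≤ Polynomial.aeval z (dlt x) →
          z = theta i) ∧
        (∃ z : ℝ, Polynomial.aeval z (mq (nn i)) = 0 ∧ Polynomial.aeval z (dlt x) < 0) :=
  (exists_data (nn i) (nn_ge i) (nn_odd i) (val i)).choose_spec.choose_spec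

noncomputable def D : Data where
  n := nn
  hn5 := nn_ge
  h6 := nn_coprime6
  hcop := nn_coprime
  θ := theta
  hθ := fun i => (theta_yy_spec i).1
  act := act
  δ := fun i => dlt ((val i).getD 0)
  y := yy
  hy := by
    intro i hi
    obtain ⟨x, hx⟩ := Option.isSome_iff_exists.1 ((val_isSome_iff i).2 hi)
    rw [hx, Option.getD_some]
    exact ((theta_yy_spec i).2.2 x hx).1
  hy0 := fun i hi => (theta_yy_spec i).2.1 (val_none hi)
  huniq := by
    intro i hi
    obtain ⟨x, hx⟩ := Option.isSome_iff_exists.1 ((val_isSome_iff i).2 hi)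
    rw [hx, Option.getD_some]
    exact ((theta_yy_spec i).2.2 x hx).2.1
  hneg := by
    intro i hi
    obtain ⟨x, hx⟩ := Option.isSome_iff_exists.1 ((val_isSome_iff i).2 hi)
    rw [hx, Option.getD_some]
    exact ((theta_yy_spec i).2.2 x hx).2.2

/-- the generators, as real numbers -/
noncomputable def gen (v : ℕ) : ℝ :=
  if v % 3 = 0 then theta (v / 3) else
  if v % 3 = 1 then (if (H (v / 3).unpair.1 (v / 3).unpair.2).isSome = true then
    yy (v / 3).unpair.1 else 0) else
  1 / ((v / 3 : ℕ) + 1 : ℝ)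

lemma gen0 (i : ℕ) : gen (3 * i) = theta i := by
  have h1 : 3 * i % 3 = 0 := by omega
  have h2 : 3 * i / 3 = i := by omega
  rw [gen, if_pos h1, h2]

lemma gen1 (u : ℕ) : gen (3 * u + 1) =
    if (H u.unpair.1 u.unpair.2).isSome = true then yy u.unpair.1 else 0 := by
  have h1 : (3 * u + 1) % 3 = 1 := by omega
  have h2 : (3 * u + 1) / 3 = u := by omega
  rw [gen, if_neg (by omega), if_pos h1, h2]

lemma gen2 (u : ℕ) : gen (3 * u + 2) = 1 / ((u : ℝ) + 1) := by
  have h1 : (3 * u + 2) % 3 = 2 := by omega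
  have h2 : (3 * u + 2) / 3 = u := by omega
  rw [gen, if_neg (by omega), if_neg (by omega), h2]

/-! ### evaluation of the relations in an arbitrary commutative ring -/

section Ev

variable {R : Type*} [CommRing R] [Algebra ℤ R] (g : ℕ → R)

lemma aeval_mono (w : List ℕ) : aeval g (mono w) = (w.map g).prod := by
  rw [mono, map_list_prod, List.map_map]
  congr 1
  apply List.map_congr_left
  intro a _
  simp

lemma aeval_sumM (A : List (List ℕ)) :
    aeval g (sumM A) = (A.map (fun w => (w.map g).prod)).sum := by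
  rw [sumM, map_list_sum, List.map_map]
  congr 1
  apply List.map_congr_left
  intro a _
  simp [aeval_mono]

lemma aeval_relTheta (i : ℕ) :
    aeval g (psi (relTheta i)) = g (3 * i) ^ (nn i) - 4 * g (3 * i) + 2 := by
  rw [psi, map_sub, aeval_sumM, aeval_sumM, relTheta]
  simp only [repl_eq, List.map_cons, List.map_nil, List.sum_cons, List.sum_nil,
    List.map_replicate, List.prod_replicate, List.prod_nil, List.prod_cons, mul_one]
  ring

lemma aeval_relY_none {u : ℕ} (h : H u.unpair.1 u.unpair.2 = none) :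
    aeval g (psi (relY u)) = g (3 * u + 1) := by
  rw [psi, map_sub, aeval_sumM, aeval_sumM, relY, h]
  simp [relYaux]

lemma aeval_relY_zero {u : ℕ} (h : H u.unpair.1 u.unpair.2 = some 0) :
    aeval g (psi (relY u)) = g (3 * u + 1) ^ 2 + g (3 * u.unpair.1) := by
  rw [psi, map_sub, aeval_sumM, aeval_sumM, relY, h]
  simp [relYaux]; ring

lemma aeval_relY_succ {u m : ℕ} (h : H u.unpair.1 u.unpair.2 = some (m + 1)) :
    aeval g (psi (relY u)) = g (3 * u + 1) ^ 2 + g (3 * u.unpair.1) ^ 2 - g (3 * u.unpair.1) := by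
  rw [psi, map_sub, aeval_sumM, aeval_sumM, relY, h]
  simp [relYaux]; ring

lemma aeval_relC_some {i k k' : ℕ} (h : (H i k).isSome = true) (h' : (H i k').isSome = true) :
    aeval g (psi (relC (Nat.pair i (Nat.pair k k')))) =
      g (3 * Nat.pair i k + 1) - g (3 * Nat.pair i k' + 1) := by
  rw [psi, map_sub, aeval_sumM, aeval_sumM, relC]
  simp [h, h']

lemma aeval_relQ (u : ℕ) : aeval g (psi (relQ u)) = (u + 1) * g (3 * u + 2) - 1 := by
  rw [psi, map_sub, aeval_sumM, aeval_sumM, relQ]
  simp only [repl_eq, List.map_cons, List.map_nil, List.sum_cons, List.sum_nil,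
    List.map_replicate, List.sum_replicate, List.prod_nil, List.prod_cons, mul_one,
    nsmul_eq_mul]
  push_cast
  ring

end Ev

lemma relT_theta (i : ℕ) : relT (4 * i) = relTheta i := by
  have h1 : 4 * i % 4 = 0 := by omega
  have h2 : 4 * i / 4 = i := by omega
  rw [relT, if_pos h1, h2]

lemma relT_Y (i : ℕ) : relT (4 * i + 1) = relY i := by
  have h1 : (4 * i + 1) % 4 = 1 := by omega
  have h2 : (4 * i + 1) / 4 = i := by omega
  rw [relT, if_neg (by omega), if_pos h1, h2]

lemma relT_C (i : ℕ) : relT (4 * i + 2) = relC i := by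
  have h1 : (4 * i + 2) % 4 = 2 := by omega
  have h2 : (4 * i + 2) / 4 = i := by omega
  rw [relT, if_neg (by omega), if_neg (by omega), if_pos h1, h2]

lemma relT_Q (i : ℕ) : relT (4 * i + 3) = relQ i := by
  have h2 : (4 * i + 3) / 4 = i := by omega
  rw [relT, if_neg (by omega), if_neg (by omega), if_neg (by omega), h2]

lemma relC_other {u : ℕ} (h : ¬ ((H u.unpair.1 u.unpair.2.unpair.1).isSome = true ∧
    (H u.unpair.1 u.unpair.2.unpair.2).isSome = true)) : relC u = ([], []) := by
  rw [relC]
  have : ((H u.unpair.1 u.unpair.2.unpair.1).isSome &&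
    (H u.unpair.1 u.unpair.2.unpair.2).isSome) = false := by
    rw [← Bool.not_eq_true, Bool.and_eq_true]; exact h
  rw [this]; rfl

/-- soundness of the relations -/
theorem sound (r : ℕ) : aeval gen (psi (relT r)) = 0 := by
  have h4 : r = 4 * (r / 4) ∨ r = 4 * (r / 4) + 1 ∨ r = 4 * (r / 4) + 2 ∨ r = 4 * (r / 4) + 3 := by
    omega
  rcases h4 with h | h | h | h
  · rw [h, relT_theta, aeval_relTheta, gen0]
    have := (theta_yy_spec (r / 4)).1
    rw [aeval_mq] at this
    exact this
  · rw [h, relT_Y]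
    rcases hH : H (r / 4).unpair.1 (r / 4).unpair.2 with _ | m
    · rw [aeval_relY_none gen hH, gen1, hH]; simp
    · have hval : val (r / 4).unpair.1 = some m := by
        rw [← H_eq_val (i := (r / 4).unpair.1) (k := (r / 4).unpair.2) (by rw [hH]; rfl), hH]
      have hs := ((theta_yy_spec (r / 4).unpair.1).2.2 m hval).1
      rcases m with _ | m
      · rw [aeval_relY_zero gen hH, gen1, hH, gen0]
        rw [aeval_dlt_zero] at hs
        simp [hs]
      · rw [aeval_relY_succ gen hH, gen1, hH, gen0]
        rw [aeval_dlt_succ] at hs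
        simp [hs]
  · rw [h, relT_C]
    by_cases hc : ((H (r / 4).unpair.1 (r / 4).unpair.2.unpair.1).isSome = true ∧
        (H (r / 4).unpair.1 (r / 4).unpair.2.unpair.2).isSome = true)
    · have h5 : Nat.pair (r / 4).unpair.1 (Nat.pair (r / 4).unpair.2.unpair.1
          (r / 4).unpair.2.unpair.2) = r / 4 := by simp
      have h6 := aeval_relC_some gen hc.1 hc.2
      rw [h5] at h6
      rw [h6, gen1, gen1]
      simp [hc.1, hc.2]
    · rw [relC_other hc]
      simp [psi, sumM]
  · rw [h, relT_Q, aeval_relQ, gen2]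
    field_simp
    ring

end Pool.Helper99.OrdField
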