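import Mathlib
import Pool.Agent.Helper99.OrdField.RealData
import Pool.Agent.Helper99.OrdField.Pres

set_option autoImplicit false
set_option linter.style.haveILetI false

open MvPolynomial

namespace Pool.Helper99.OrdField

open Nat.Partrec (Code)

abbrev Q : Type := MvPolynomial ℕ ℤ ⧸ I relT

noncomputable def mk : MvPolynomial ℕ ℤ →+* Q := Ideal.Quotient.mk (I relT)

noncomputable def gq (v : ℕ) : Q := mk (X v)

lemma aeval_gq (p : MvPolynomial ℕ ℤ) : aeval gq p = mk p := by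
  have : (aeval gq : MvPolynomial ℕ ℤ →ₐ[ℤ] Q).toRingHom = mk := by
    apply MvPolynomial.ringHom_ext
    · intro a
      simp
    · intro i
      simp [gq]
  exact DFunLike.congr_fun this p

lemma mk_rel (r : ℕ) : mk (psi (relT r)) = 0 := by
  rw [mk, Ideal.Quotient.eq_zero_iff_mem]
  exact Ideal.subset_span ⟨r, rfl⟩

lemma aeval_gq_rel (r : ℕ) : aeval gq (psi (relT r)) = 0 := by
  rw [aeval_gq, mk_rel]

lemma gq_inv (u : ℕ) : ((u : Q) + 1) * gq (3 * u + 2) = 1 := by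
  have h := aeval_gq_rel (4 * u + 3)
  rw [relT_Q, aeval_relQ] at h
  exact sub_eq_zero.1 h

lemma isUnit_int (y : nonZeroDivisors ℤ) : IsUnit ((Int.castRingHom Q) y) := by
  have hy : (y : ℤ) ≠ 0 := nonZeroDivisors.coe_ne_zero y
  have key : ∀ n : ℕ, n ≠ 0 → IsUnit ((n : Q)) := by
    intro n hn
    obtain ⟨u, rfl⟩ := Nat.exists_eq_succ_of_ne_zero hn
    have := gq_inv u
    rw [Nat.succ_eq_add_one, Nat.cast_add, Nat.cast_one]
    exact IsUnit.of_mul_eq_one _ this
  have h1 : (Int.castRingHom Q) (y : ℤ) = ((y : ℤ) : Q) := rfl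
  rw [h1]
  rcases Int.natAbs_eq (y : ℤ) with h | h
  · rw [h, Int.cast_natCast]
    exact key _ (by omega)
  · rw [h, Int.cast_neg, Int.cast_natCast]
    exact (key _ (by omega)).neg

noncomputable def ratHom : ℚ →+* Q :=
  IsLocalization.lift (M := nonZeroDivisors ℤ) (g := Int.castRingHom Q) isUnit_int

noncomputable instance : Algebra ℚ Q := ratHom.toAlgebra

noncomputable def Xq (i : ℕ) : Q := gq (3 * i)

open Classical in
noncomputable def Yq (i : ℕ) : Q := if act i then gq (3 * Nat.pair i (stage i) + 1) else 0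

lemma Xq_rel (i : ℕ) : Polynomial.aeval (Xq i) (mq (nn i)) = 0 := by
  have h := aeval_gq_rel (4 * i)
  rw [relT_theta, aeval_relTheta] at h
  simp only [mq, map_add, map_sub, map_mul, Polynomial.aeval_X_pow, Polynomial.aeval_C,
    Polynomial.aeval_X, map_ofNat]
  exact h

lemma H_stage {i : ℕ} (h : act i) : (H i (stage i)).isSome = true := by
  classical
  rw [stage, dif_pos h]; exact Nat.find_spec h

/-- in the quotient all the variables y_{i,k} with a halted stage are equal -/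
lemma gq_y {i k : ℕ} (h : (H i k).isSome = true) : gq (3 * Nat.pair i k + 1) = Yq i := by
  classical
  have hact : act i := ⟨k, h⟩
  rw [Yq, if_pos hact]
  have h1 := aeval_gq_rel (4 * Nat.pair i (Nat.pair k (stage i)) + 2)
  rw [relT_C, aeval_relC_some gq h (H_stage hact)] at h1
  exact sub_eq_zero.1 h1

lemma gq_y_none {u : ℕ} (h : H u.unpair.1 u.unpair.2 = none) : gq (3 * u + 1) = 0 := by
  have h1 := aeval_gq_rel (4 * u + 1)
  rw [relT_Y, aeval_relY_none gq h] at h1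
  exact h1

lemma Yq_rel (i : ℕ) (h : act i) : Yq i ^ 2 = Polynomial.aeval (Xq i) (dlt ((val i).getD 0)) := by
  classical
  obtain ⟨x, hx⟩ := Option.isSome_iff_exists.1 ((val_isSome_iff i).2 h)
  rw [hx, Option.getD_some, Yq, if_pos h]
  have h1 := aeval_gq_rel (4 * Nat.pair i (stage i) + 1)
  rw [relT_Y] at h1
  have hH : H (Nat.pair i (stage i)).unpair.1 (Nat.pair i (stage i)).unpair.2 = some x := by
    rw [Nat.unpair_pair]; exact hx
  rcases x with _ | m
  · rw [aeval_relY_zero gq hH, Nat.unpair_pair] at h1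
    rw [aeval_dlt_zero, Xq]
    exact eq_neg_of_add_eq_zero_left h1
  · rw [aeval_relY_succ gq hH, Nat.unpair_pair] at h1
    rw [aeval_dlt_succ, Xq]
    linear_combination h1

lemma Yq_zero (i : ℕ) (h : ¬ act i) : Yq i = 0 := by
  classical
  rw [Yq, if_neg h]

/-- main comparison -/
theorem compare (p : MvPolynomial ℕ ℤ) : ∃ S₀ : Finset ℕ, ∀ S, S₀ ⊆ S → ∀ ψ : D.B S →+* Q,
    (∀ i ∈ S, (∀ h : D.θ i ∈ D.B S, ψ ⟨D.θ i, h⟩ = Xq i) ∧
      (∀ h : D.y i ∈ D.B S, ψ ⟨D.y i, h⟩ = Yq i)) →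
    ∃ h : aeval gen p ∈ D.B S, ψ ⟨aeval gen p, h⟩ = mk p := by
  induction p using MvPolynomial.induction_on with
  | C a =>
    refine ⟨∅, fun S _ ψ _ => ?_⟩
    have h1 : aeval gen (C a : MvPolynomial ℕ ℤ) = ((a : ℤ) : ℝ) := by simp
    have hmem : aeval gen (C a : MvPolynomial ℕ ℤ) ∈ D.B S := by
      rw [h1]; exact intCast_mem _ a
    refine ⟨hmem, ?_⟩
    have h2 : (⟨aeval gen (C a : MvPolynomial ℕ ℤ), hmem⟩ : D.B S) = ((a : ℤ) : D.B S) := by
      apply Subtype.ext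
      show aeval gen (C a : MvPolynomial ℕ ℤ) = _
      rw [h1]; simp
    rw [h2, map_intCast]
    have h3 : (C a : MvPolynomial ℕ ℤ) = ((a : ℤ) : MvPolynomial ℕ ℤ) := by simp
    rw [h3, map_intCast]
  | add p q hp hq =>
    obtain ⟨S1, h1⟩ := hp
    obtain ⟨S2, h2⟩ := hq
    classical
    refine ⟨S1 ∪ S2, fun S hS ψ hψ => ?_⟩
    obtain ⟨m1, e1⟩ := h1 S (Finset.union_subset_left hS) ψ hψ
    obtain ⟨m2, e2⟩ := h2 S (Finset.union_subset_right hS) ψ hψ
    have hmem : aeval gen (p + q) ∈ D.B S := by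
      rw [map_add]; exact add_mem m1 m2
    refine ⟨hmem, ?_⟩
    have h3 : (⟨aeval gen (p + q), hmem⟩ : D.B S) = ⟨aeval gen p, m1⟩ + ⟨aeval gen q, m2⟩ := by
      apply Subtype.ext
      simp
    rw [h3, map_add, e1, e2, map_add]
  | mul_X p v hp =>
    obtain ⟨S1, h1⟩ := hp
    classical
    -- the variable
    have hvar : ∃ S₀ : Finset ℕ, ∀ S, S₀ ⊆ S → ∀ ψ : D.B S →+* Q,
        (∀ i ∈ S, (∀ h : D.θ i ∈ D.B S, ψ ⟨D.θ i, h⟩ = Xq i) ∧
          (∀ h : D.y i ∈ D.B S, ψ ⟨D.y i, h⟩ = Yq i)) →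
        ∃ h : gen v ∈ D.B S, ψ ⟨gen v, h⟩ = gq v := by
      have h3 : v = 3 * (v / 3) ∨ v = 3 * (v / 3) + 1 ∨ v = 3 * (v / 3) + 2 := by omega
      rcases h3 with h3 | h3 | h3
      · refine ⟨{v / 3}, fun S hS ψ hψ => ?_⟩
        have hi : v / 3 ∈ S := hS (by simp)
        rw [h3, gen0]
        exact ⟨D.θ_mem hi, (hψ _ hi).1 _⟩
      · by_cases hH : (H (v / 3).unpair.1 (v / 3).unpair.2).isSome = true
        · refine ⟨{(v / 3).unpair.1}, fun S hS ψ hψ => ?_⟩
          have hi : (v / 3).unpair.1 ∈ S := hS (by simp)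
          rw [h3, gen1, if_pos hH]
          have h4 := gq_y hH
          rw [Nat.pair_unpair] at h4
          rw [h4]
          exact ⟨D.y_mem hi, (hψ _ hi).2 _⟩
        · refine ⟨∅, fun S _ ψ _ => ?_⟩
          rw [h3, gen1, if_neg hH]
          have hn : H (v / 3).unpair.1 (v / 3).unpair.2 = none := by simpa using hH
          rw [gq_y_none hn]
          refine ⟨zero_mem _, ?_⟩
          have : (⟨0, zero_mem _⟩ : D.B S) = 0 := rfl
          rw [this, map_zero]
      · refine ⟨∅, fun S _ ψ _ => ?_⟩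
        rw [h3, gen2]
        have hmem : (1 / (((v / 3 : ℕ) : ℝ) + 1)) ∈ D.B S := by
          exact div_mem (one_mem _) (add_mem (natCast_mem _ _) (one_mem _))
        refine ⟨hmem, ?_⟩
        have h4 : (((v / 3 : ℕ) : D.B S) + 1) * ⟨1 / (((v / 3 : ℕ) : ℝ) + 1), hmem⟩ = 1 := by
          apply Subtype.ext
          simp only [MulMemClass.coe_mul, AddMemClass.coe_add, OneMemClass.coe_one]
          have : (((v / 3 : ℕ) : D.B S) : ℝ) = ((v / 3 : ℕ) : ℝ) := by simp
          rw [this]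
          field_simp
        have h5 := congrArg ψ h4
        rw [map_mul, map_add, map_natCast, map_one] at h5
        have h6 := gq_inv (v / 3)
        have h7 : ((v / 3 : ℕ) : Q) + 1 ≠ 0 ∨ True := Or.inr trivial
        calc ψ ⟨1 / (((v / 3 : ℕ) : ℝ) + 1), hmem⟩
            = ψ ⟨1 / (((v / 3 : ℕ) : ℝ) + 1), hmem⟩ * 1 := by rw [mul_one]
          _ = ψ ⟨1 / (((v / 3 : ℕ) : ℝ) + 1), hmem⟩ *
                ((((v / 3 : ℕ) : Q) + 1) * gq (3 * (v / 3) + 2)) := by rw [h6]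
          _ = ((((v / 3 : ℕ) : Q) + 1) * ψ ⟨1 / (((v / 3 : ℕ) : ℝ) + 1), hmem⟩) *
                gq (3 * (v / 3) + 2) := by ring
          _ = gq (3 * (v / 3) + 2) := by rw [h5, one_mul]
    obtain ⟨S2, h2⟩ := hvar
    refine ⟨S1 ∪ S2, fun S hS ψ hψ => ?_⟩
    obtain ⟨m1, e1⟩ := h1 S (Finset.union_subset_left hS) ψ hψ
    obtain ⟨m2, e2⟩ := h2 S (Finset.union_subset_right hS) ψ hψ
    have hmem : aeval gen (p * X v) ∈ D.B S := by
      rw [map_mul, aeval_X]; exact mul_mem m1 m2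
    refine ⟨hmem, ?_⟩
    have h3 : (⟨aeval gen (p * X v), hmem⟩ : D.B S) = ⟨aeval gen p, m1⟩ * ⟨gen v, m2⟩ := by
      apply Subtype.ext
      simp
    rw [h3, map_mul, e1, e2, map_mul]
    rfl

theorem complete {p : MvPolynomial ℕ ℤ} (hp : aeval gen p = 0) : p ∈ I relT := by
  obtain ⟨S, hS⟩ := compare p
  obtain ⟨ψ, hψ⟩ := D.exists_hom_B Xq Yq Xq_rel Yq_rel Yq_zero S
  obtain ⟨h, e⟩ := hS S (Finset.Subset.refl _) ψ hψ
  have h1 : (⟨aeval gen p, h⟩ : D.B S) = 0 := Subtype.ext hp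
  rw [h1, map_zero] at e
  rw [← Ideal.Quotient.eq_zero_iff_mem]
  exact e.symm

theorem sound_mem {p : MvPolynomial ℕ ℤ} (hp : p ∈ I relT) : aeval gen p = 0 := by
  have : I relT ≤ RingHom.ker (aeval gen : MvPolynomial ℕ ℤ →ₐ[ℤ] ℝ) := by
    rw [I, Ideal.span_le]
    rintro _ ⟨r, rfl⟩
    exact sound r
  exact this hp

/-! ### the field F as range of the evaluation -/

lemma aeval_gen_mem (p : MvPolynomial ℕ ℤ) : aeval gen p ∈ D.F := by
  obtain ⟨S, hS⟩ := compare p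
  obtain ⟨ψ, hψ⟩ := D.exists_hom_B Xq Yq Xq_rel Yq_rel Yq_zero S
  obtain ⟨h, e⟩ := hS S (Finset.Subset.refl _) ψ hψ
  exact D.B_le_F S h

lemma theta_integral (i : ℕ) : IsIntegral ℚ (D.θ i) := integral_of_root (D.hn2 i) (D.hθ i)

lemma y_integral (i : ℕ) : IsIntegral ℚ (D.y i) := by
  by_cases h : D.act i
  · have h1 := D.hy i h
    have h2 : IsIntegral ℚ (D.y i ^ 2) := by
      rw [h1]
      have h3 : Polynomial.aeval (D.θ i) (D.δ i) ∈ Algebra.adjoin ℚ {D.θ i} :=
        Polynomial.aeval_mem_adjoin_singleton ℚ (D.θ i)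
      exact (Algebra.IsIntegral.adjoin (by
        intro x hx
        rw [Set.mem_singleton_iff] at hx
        rw [hx]; exact theta_integral i)).isIntegral ⟨_, h3⟩ |>.map (Subalgebra.val _)
    exact IsIntegral.of_pow (by norm_num) h2
  · rw [D.hy0 i h]; exact isIntegral_zero

theorem exists_term {x : ℝ} (hx : x ∈ D.F) : ∃ p : MvPolynomial ℕ ℤ, aeval gen p = x := by
  -- the range is a ℚ-subalgebra
  let R : Subring ℝ := (aeval gen : MvPolynomial ℕ ℤ →ₐ[ℤ] ℝ).toRingHom.range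
  have hinv : ∀ u : ℕ, (1 / ((u : ℝ) + 1)) ∈ R := by
    intro u
    refine ⟨X (3 * u + 2), ?_⟩
    simp [gen2]
  have hrat : ∀ q : ℚ, (q : ℝ) ∈ R := by
    intro q
    have h1 : (q : ℝ) = (q.num : ℝ) * (1 / (((q.den - 1 : ℕ) : ℝ) + 1)) := by
      have h2 : ((q.den - 1 : ℕ) : ℝ) + 1 = (q.den : ℝ) := by
        have := q.den_pos
        rw [Nat.cast_sub (by omega)]; simp
      rw [h2, mul_one_div]
      exact Rat.cast_def q
    rw [h1]
    exact mul_mem (intCast_mem _ _) (hinv _)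
  let A : Subalgebra ℚ ℝ :=
    { R with
      algebraMap_mem' := fun q => hrat q }
  have hgens : {x | ∃ i, x = D.θ i ∨ x = D.y i} ⊆ (A : Set ℝ) := by
    rintro z ⟨i, rfl | rfl⟩
    · show D.θ i ∈ R
      refine ⟨X (3 * i), ?_⟩
      have : gen (3 * i) = D.θ i := gen0 i
      simp [this]
    · show D.y i ∈ R
      by_cases h : act i
      · refine ⟨X (3 * Nat.pair i (stage i) + 1), ?_⟩
        have h2 : gen (3 * Nat.pair i (stage i) + 1) = D.y i := by
          rw [gen1, Nat.unpair_pair, if_pos (H_stage h)]; rfl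
        simp [h2]
      · rw [D.hy0 i h]; exact zero_mem _
  have hF : D.F.toSubalgebra = Algebra.adjoin ℚ {x | ∃ i, x = D.θ i ∨ x = D.y i} := by
    apply IntermediateField.adjoin_toSubalgebra_of_isAlgebraic
    rintro z ⟨i, rfl | rfl⟩
    · exact (theta_integral i).isAlgebraic
    · exact (y_integral i).isAlgebraic
  have hx' : x ∈ D.F.toSubalgebra := hx
  rw [hF] at hx'
  have := Algebra.adjoin_le hgens hx'
  exact this

end Pool.Helper99.OrdField
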