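import Mathlib
import Pool.Agent.Helper99.OrdField.Complete

set_option autoImplicit false
set_option linter.style.haveILetI false

open MvPolynomial

namespace Pool.Helper99.OrdField

open Nat.Partrec (Code)

/-! ### the computable presentation -/

def dec (n : ℕ) : T := ((Encodable.decode n : Option T)).getD zeroT

theorem dec_primrec : Primrec dec :=
  Primrec.option_getD.comp Primrec.decode (Primrec.const zeroT)

def dec2 (n : ℕ) : T × List (T × ℕ) :=
  ((Encodable.decode n : Option (T × List (T × ℕ)))).getD (zeroT, [])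

theorem dec2_primrec : Primrec dec2 :=
  Primrec.option_getD.comp Primrec.decode (Primrec.const (zeroT, []))

lemma dec_encode (t : T) : dec (Encodable.encode t) = t := by
  rw [dec, Encodable.encodek]; rfl

lemma dec2_encode (t : T × List (T × ℕ)) : dec2 (Encodable.encode t) = t := by
  rw [dec2, Encodable.encodek]; rfl

noncomputable def vv (n : ℕ) : D.F := ⟨aeval gen (psi (dec n)), aeval_gen_mem _⟩

lemma vv_surjective : Function.Surjective vv := by
  rintro ⟨x, hx⟩
  obtain ⟨p, hp⟩ := exists_term hx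
  obtain ⟨t, ht⟩ := psi_surjective p
  refine ⟨Encodable.encode t, ?_⟩
  apply Subtype.ext
  show aeval gen (psi (dec (Encodable.encode t))) = x
  rw [dec_encode, ht, hp]

def addN (a b : ℕ) : ℕ := Encodable.encode (addT (dec a) (dec b))
def mulN (a b : ℕ) : ℕ := Encodable.encode (mulT (dec a) (dec b))

theorem addN_primrec : Primrec₂ addN :=
  Primrec.encode.comp (addT_primrec.comp (dec_primrec.comp Primrec.fst)
    (dec_primrec.comp Primrec.snd))

theorem mulN_primrec : Primrec₂ mulN :=
  Primrec.encode.comp (mulT_primrec.comp (dec_primrec.comp Primrec.fst)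
    (dec_primrec.comp Primrec.snd))

lemma vv_add (a b : ℕ) : vv (addN a b) = vv a + vv b := by
  apply Subtype.ext
  show aeval gen (psi (dec (addN a b))) = aeval gen (psi (dec a)) + aeval gen (psi (dec b))
  rw [addN, dec_encode, psi_addT, map_add]

lemma vv_mul (a b : ℕ) : vv (mulN a b) = vv a * vv b := by
  apply Subtype.ext
  show aeval gen (psi (dec (mulN a b))) = aeval gen (psi (dec a)) * aeval gen (psi (dec b))
  rw [mulN, dec_encode, psi_mulT, map_mul]

def diffT (q : ℕ × ℕ) : T := addT (dec q.1) (negT (dec q.2))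

theorem diffT_primrec : Primrec diffT :=
  addT_primrec.comp (dec_primrec.comp Primrec.fst)
    (negT_primrec.comp (dec_primrec.comp Primrec.snd))

lemma diffT_eval (q : ℕ × ℕ) :
    aeval gen (psi (diffT q)) = aeval gen (psi (dec q.1)) - aeval gen (psi (dec q.2)) := by
  rw [diffT, psi_addT, psi_negT, map_add, map_neg]; ring

def chk1 (q : ℕ × ℕ) (k : ℕ) : Prop := eqT (diffT q) (sigma relT (dec2 k).2)
def chk2 (q : ℕ × ℕ) (k : ℕ) : Prop :=
  eqT (mulT (diffT q) (dec2 k).1) (addT oneT (sigma relT (dec2 k).2))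

theorem chk1_primrec : PrimrecRel chk1 := by
  have h1 : Primrec (fun p : (ℕ × ℕ) × ℕ => diffT p.1) := diffT_primrec.comp Primrec.fst
  have h2 : Primrec (fun p : (ℕ × ℕ) × ℕ => sigma relT (dec2 p.2).2) :=
    (sigma_primrec relT_primrec).comp (Primrec.snd.comp (dec2_primrec.comp Primrec.snd))
  exact eqT_primrec.comp h1 h2

theorem chk2_primrec : PrimrecRel chk2 := by
  have h1 : Primrec (fun p : (ℕ × ℕ) × ℕ => mulT (diffT p.1) (dec2 p.2).1) :=
    mulT_primrec.comp (diffT_primrec.comp Primrec.fst)
      (Primrec.fst.comp (dec2_primrec.comp Primrec.snd))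
  have h2 : Primrec (fun p : (ℕ × ℕ) × ℕ => addT oneT (sigma relT (dec2 p.2).2)) :=
    addT_primrec.comp (Primrec.const oneT)
      ((sigma_primrec relT_primrec).comp (Primrec.snd.comp (dec2_primrec.comp Primrec.snd)))
  exact eqT_primrec.comp h1 h2

lemma chk1_sound {q : ℕ × ℕ} {k : ℕ} (h : chk1 q k) : vv q.1 = vv q.2 := by
  rw [chk1, eqT_iff] at h
  have h1 : aeval gen (psi (diffT q)) = 0 := by
    rw [h]; exact sound_mem (psi_sigma_mem _)
  rw [diffT_eval, sub_eq_zero] at h1
  exact Subtype.ext h1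

lemma chk2_sound {q : ℕ × ℕ} {k : ℕ} (h : chk2 q k) : vv q.1 ≠ vv q.2 := by
  rw [chk2, eqT_iff, psi_mulT, psi_addT, psi_oneT] at h
  have h1 := congrArg (aeval gen) h
  rw [map_mul, map_add, map_one, sound_mem (psi_sigma_mem _), add_zero] at h1
  intro h2
  have h3 : aeval gen (psi (dec q.1)) = aeval gen (psi (dec q.2)) := congrArg Subtype.val h2
  rw [diffT_eval, h3, sub_self, zero_mul] at h1
  exact zero_ne_one h1

lemma chk_exists (q : ℕ × ℕ) : ∃ k, chk1 q k ∨ chk2 q k := by
  by_cases h : vv q.1 = vv q.2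
  · have h3 : aeval gen (psi (dec q.1)) = aeval gen (psi (dec q.2)) := congrArg Subtype.val h
    have h1 : aeval gen (psi (diffT q)) = 0 := by rw [diffT_eval, h3, sub_self]
    obtain ⟨c, hc⟩ := exists_cert (complete h1)
    refine ⟨Encodable.encode ((zeroT, c) : T × List (T × ℕ)), Or.inl ?_⟩
    rw [chk1, eqT_iff, dec2_encode, hc]
  · have h1 : aeval gen (psi (diffT q)) ≠ 0 := by
      rw [diffT_eval]
      intro h2
      exact h (Subtype.ext (sub_eq_zero.1 h2))
    have hmem : (aeval gen (psi (diffT q)))⁻¹ ∈ D.F := inv_mem (aeval_gen_mem _)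
    obtain ⟨p, hp⟩ := exists_term hmem
    obtain ⟨s, rfl⟩ := psi_surjective p
    have h2 : aeval gen (psi (mulT (diffT q) s) - 1) = 0 := by
      rw [psi_mulT, map_sub, map_mul, hp, mul_inv_cancel₀ h1, map_one, sub_self]
    obtain ⟨c, hc⟩ := exists_cert (complete h2)
    refine ⟨Encodable.encode ((s, c) : T × List (T × ℕ)), Or.inr ?_⟩
    rw [chk2, eqT_iff, dec2_encode]
    show psi (mulT (diffT q) s) = psi (addT oneT (sigma relT c))
    rw [psi_addT, psi_oneT, hc]; ring

open Classical in
theorem exists_eqb : ∃ eqb : ℕ → ℕ → Bool, Computable₂ eqb ∧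
    ∀ a b, eqb a b = true ↔ vv a = vv b := by
  have hd1 : Primrec₂ (fun (q : ℕ × ℕ) (k : ℕ) => decide (chk1 q k)) := by
    have h1 : PrimrecPred (fun p : (ℕ × ℕ) × ℕ => chk1 p.1 p.2) := chk1_primrec
    exact h1.decide
  have hd2 : Primrec₂ (fun (q : ℕ × ℕ) (k : ℕ) => decide (chk2 q k)) := by
    have h1 : PrimrecPred (fun p : (ℕ × ℕ) × ℕ => chk2 p.1 p.2) := chk2_primrec
    exact h1.decide
  obtain ⟨f, hf, hf2⟩ := computable_find (α := ℕ × ℕ)
    (fun q k => decide (chk1 q k) || decide (chk2 q k))
    (Primrec.or.to_comp.comp hd1.to_comp hd2.to_comp) (by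
      intro q
      obtain ⟨k, hk⟩ := chk_exists q
      refine ⟨k, ?_⟩
      simpa using hk)
  have hcomp : Computable (fun q : ℕ × ℕ => decide (chk1 q (f q))) :=
    Computable₂.comp (f := fun (q : ℕ × ℕ) (k : ℕ) => decide (chk1 q k)) hd1.to_comp
      Computable.id hf
  refine ⟨fun a b => decide (chk1 (a, b) (f (a, b))), ?_, ?_⟩
  · exact hcomp
  · intro a b
    simp only [decide_eq_true_eq]
    constructor
    · intro h
      exact chk1_sound (q := (a, b)) (k := f (a, b)) h
    · intro h
      have h1 := hf2 (a, b)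
      simp only [Bool.or_eq_true, decide_eq_true_eq] at h1
      rcases h1 with h1 | h1
      · exact h1
      · exact absurd h (chk2_sound (q := (a, b)) (k := f (a, b)) h1)

theorem presentation : ∃ e : ℕ ≃ D.F,
        Computable₂ (fun a b : ℕ => e.symm (e a + e b)) ∧
        Computable₂ (fun a b : ℕ => e.symm (e a * e b)) ∧
        Computable (fun a : ℕ => e.symm (-(e a))) ∧
        Computable (fun a : ℕ => e.symm ((e a)⁻¹)) := by
  obtain ⟨eqb, h1, h2⟩ := exists_eqb
  exact exists_presentation vv vv_surjective addN mulN addN_primrec.to_comp mulN_primrec.to_comp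
    vv_add vv_mul eqb h1 h2

/-! ### no computable ordering -/

theorem theta_mem_F (i : ℕ) : D.θ i ∈ D.F :=
  D.B_le_F {i} (D.θ_mem (by simp))

theorem y_mem_F (i : ℕ) : D.y i ∈ D.F :=
  D.B_le_F {i} (D.y_mem (by simp))

theorem no_order (e : ℕ ≃ D.F)
    (hadd : Computable₂ (fun a b : ℕ => e.symm (e a + e b)))
    (hmul : Computable₂ (fun a b : ℕ => e.symm (e a * e b)))
    (P : Set D.F) (hP : ComputablePred (fun a : ℕ => e a ∈ P)) (h0 : (0 : D.F) ∉ P)
    (hPa : ∀ x y : D.F, x ∈ P → y ∈ P → x + y ∈ P)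
    (hPm : ∀ x y : D.F, x ∈ P → y ∈ P → x * y ∈ P)
    (hPt : ∀ x : D.F, x ≠ 0 → x ∈ P ∨ -x ∈ P) : False := by
  classical
  obtain ⟨b, hb, hb2⟩ := ComputablePred.computable_iff.1 hP
  have hb3 : ∀ a, e a ∈ P ↔ b a = true := fun a => by
    have := congrFun hb2 a
    simp only [eq_iff_iff] at this
    exact this
  set addF : ℕ → ℕ → ℕ := fun a b => e.symm (e a + e b) with haddF
  set mulF : ℕ → ℕ → ℕ := fun a b => e.symm (e a * e b) with hmulF
  have eadd : ∀ a b, e (addF a b) = e a + e b := fun a b => e.apply_symm_apply _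
  have emul : ∀ a b, e (mulF a b) = e a * e b := fun a b => e.apply_symm_apply _
  set one : ℕ := e.symm 1 with hone
  have eone : e one = 1 := e.apply_symm_apply _
  -- powers
  let pw : ℕ → ℕ → ℕ := fun a n => Nat.rec (motive := fun _ => ℕ) one (fun _ acc => mulF acc a) n
  have hpw : Computable₂ pw := by
    have hh : Computable₂ (fun (q : ℕ × ℕ) (r : ℕ × ℕ) => mulF r.2 q.1) :=
      hmul.comp (Computable.snd.comp Computable.snd) (Computable.fst.comp Computable.fst)
    exact Computable.nat_rec (f := fun q : ℕ × ℕ => q.2) (g := fun _ : ℕ × ℕ => one)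
      (h := fun (q : ℕ × ℕ) (r : ℕ × ℕ) => mulF r.2 q.1) Computable.snd (Computable.const one) hh
  have epw : ∀ a n, e (pw a n) = e a ^ n := by
    intro a n
    induction n with
    | zero => rw [pow_zero]; exact eone
    | succ n ih =>
      have : pw a (n + 1) = mulF (pw a n) a := rfl
      rw [this, emul, ih, pow_succ]
  -- search for the root
  have hcond : Computable₂ (fun (i a : ℕ) =>
      (addF (pw a (nn i)) (addF one one)) == (addF (addF a a) (addF a a))) := by
    have h1 : Computable₂ (fun (i a : ℕ) => pw a (nn i)) :=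
      hpw.comp Computable.snd (nn_primrec.to_comp.comp Computable.fst)
    have h2 : Computable₂ (fun (i a : ℕ) => addF (pw a (nn i)) (addF one one)) :=
      hadd.comp h1 (Computable.const (addF one one))
    have h3 : Computable₂ (fun (_ a : ℕ) => addF a a) :=
      hadd.comp Computable.snd Computable.snd
    have h4 : Computable₂ (fun (_ a : ℕ) => addF (addF a a) (addF a a)) :=
      hadd.comp h3 h3
    exact Primrec.beq.to_comp.comp h2 h4
  have hroot_iff : ∀ i a, (addF (pw a (nn i)) (addF one one)) = (addF (addF a a) (addF a a)) ↔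
      Polynomial.aeval ((e a : D.F) : ℝ) (mq (nn i)) = 0 := by
    intro i a
    rw [← e.apply_eq_iff_eq]
    simp only [eadd, epw, eone, aeval_mq]
    rw [Subtype.ext_iff]
    push_cast
    constructor
    · intro h; linear_combination h
    · intro h; linear_combination h
  obtain ⟨g, hg, hg2⟩ := computable_find (α := ℕ) _ hcond (by
    intro i
    refine ⟨e.symm ⟨D.θ i, theta_mem_F i⟩, ?_⟩
    rw [beq_iff_eq, hroot_iff, e.apply_symm_apply]
    exact D.hθ i)
  have hgθ : ∀ i, e (g i) = ⟨D.θ i, theta_mem_F i⟩ := by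
    intro i
    have h1 := hg2 i
    rw [beq_iff_eq, hroot_iff] at h1
    apply Subtype.ext
    exact D.unique_root_F (j := i) (e (g i)).2 h1
  -- the diagonal function
  let fv : ℕ → ℕ := fun i => cond (b (g i)) 0 1
  have hfv : Computable fv :=
    Computable.cond (hb.comp hg) (Computable.const 0) (Computable.const 1)
  have hfv2 : Nat.Partrec (fun n => Part.some (fv n)) := Partrec.nat_iff.1 hfv.partrec
  obtain ⟨c, hc⟩ := Code.exists_code.1 hfv2
  set i : ℕ := Encodable.encode c with hi
  have hci : Denumerable.ofNat Code i = c := Denumerable.ofNat_encode c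
  have hmem : fv i ∈ Code.eval c i := by
    rw [hc]; exact Part.mem_some _
  obtain ⟨k, hk⟩ := Code.evaln_complete.1 hmem
  have hH : H i k = some (fv i) := by
    rw [H, hci]; exact hk
  have hval : val i = some (fv i) := by
    rw [← H_eq_val (k := k) (by rw [hH]; rfl), hH]
  have hact : D.act i := ⟨k, by rw [hH]; rfl⟩
  have hyy := D.hy i hact
  have hδ : D.δ i = dlt (fv i) := by
    show dlt ((val i).getD 0) = _
    rw [hval]; rfl
  rw [hδ] at hyy
  have hroot := D.hθ i
  have hroot2 : D.θ i ^ nn i - 4 * D.θ i + 2 = 0 := by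
    have := hroot
    rw [show D.n i = nn i from rfl, aeval_mq] at this
    exact this
  have hnn : nn i ≠ 0 := by have := nn_ge i; omega
  have hθ0 : D.θ i ≠ 0 := by
    intro h
    rw [h, zero_pow hnn] at hroot2
    norm_num at hroot2
  have hθ1 : D.θ i ≠ 1 := by
    intro h
    rw [h, one_pow] at hroot2
    norm_num at hroot2
  let tF : D.F := ⟨D.θ i, theta_mem_F i⟩
  let yF : D.F := ⟨D.y i, y_mem_F i⟩
  have htF0 : tF ≠ 0 := fun h => hθ0 (congrArg Subtype.val h)
  have hsq : ∀ x : D.F, x ≠ 0 → x * x ∈ P := by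
    intro x hx
    rcases hPt x hx with h | h
    · exact hPm _ _ h h
    · have := hPm _ _ h h
      rwa [neg_mul_neg] at this
  have hgi := hb3 (g i)
  rw [hgθ] at hgi
  rcases hbb : b (g i) with _ | _
  · -- θ not positive
    have hfv1 : fv i = 0 + 1 := by
      show cond (b (g i)) 0 1 = 1
      rw [hbb]; rfl
    rw [hfv1, aeval_dlt_succ] at hyy
    have hnot : tF ∉ P := by
      intro h
      rw [hgi.1 h] at hbb
      exact absurd hbb (by simp)
    have hneg : -tF ∈ P := (hPt tF htF0).resolve_left hnot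
    have hy2 : yF * yF = tF - tF * tF := by
      apply Subtype.ext
      show D.y i * D.y i = D.θ i - D.θ i * D.θ i
      linear_combination hyy
    have hy0 : yF ≠ 0 := by
      intro h
      have h1 : D.y i = 0 := congrArg Subtype.val h
      rw [h1] at hyy
      have h2 : D.θ i * (1 - D.θ i) = 0 := by linear_combination -hyy
      rcases mul_eq_zero.1 h2 with h3 | h3
      · exact hθ0 h3
      · exact hθ1 (by linear_combination -h3)
    have h1 := hsq yF hy0
    rw [hy2] at h1
    have h2 := hPa _ _ h1 hneg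
    have h3 := hPa _ _ h2 (hsq tF htF0)
    have h4 : tF - tF * tF + -tF + tF * tF = 0 := by ring
    rw [h4] at h3
    exact h0 h3
  · -- θ positive
    have hfv0 : fv i = 0 := by
      show cond (b (g i)) 0 1 = 0
      rw [hbb]; rfl
    rw [hfv0, aeval_dlt_zero] at hyy
    have hpos : tF ∈ P := hgi.2 hbb
    have hy2 : yF * yF = -tF := by
      apply Subtype.ext
      show D.y i * D.y i = -D.θ i
      linear_combination hyy
    have hy0 : yF ≠ 0 := by
      intro h
      have h1 : D.y i = 0 := congrArg Subtype.val h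
      rw [h1] at hyy
      exact hθ0 (by linear_combination hyy)
    have h1 := hsq yF hy0
    rw [hy2] at h1
    have h2 := hPa _ _ h1 hpos
    rw [neg_add_cancel] at h2
    exact h0 h2

end Pool.Helper99.OrdField
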